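import Mathlib
import Pool.Agent.H113R3.DH.Final

/-!
# The polynomials `P (z ^ n * A z) + t`: constants and captured orbits
-/

set_option autoImplicit false

open Polynomial Filter Topology Metric

namespace Pool.Agent.Helper134.AS

open Pool.Agent.H113R3.DH hiding Bad

variable {P A : ℂ[X]}

/-- The inner polynomial. -/
noncomputable def hh (A : ℂ[X]) (n : ℕ) (u : ℂ) : ℂ := u ^ n * A.eval u

/-- The constants of `A`. -/
theorem consts (hA : A ≠ 0) (hroot : ∀ a, A.eval a = 0 → ‖a‖ < 1) {κ : ℝ} (hκ : 0 < κ) :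
    ∃ δ a₀ a₁ : ℝ, 0 < δ ∧ δ ≤ 1 / 8 ∧ 4 * δ ≤ κ ∧ 0 < a₀ ∧ 1 ≤ a₁ ∧
      (∀ a, A.eval a = 0 → ‖a‖ ≤ 1 - 4 * δ) ∧
      (∀ u, 1 - 3 * δ ≤ ‖u‖ → a₀ ≤ ‖A.eval u‖) ∧
      ∀ u, ‖u‖ ≤ 2 → ‖A.eval u‖ ≤ a₁ ∧ ‖(derivative A).eval u‖ ≤ a₁ := by
  have hev : ∀ᶠ δ : ℝ in 𝓝[>] 0, (∀ a ∈ A.roots.toFinset, ‖a‖ < 1 - 4 * δ) ∧ δ < 1 / 8 ∧
      4 * δ < κ ∧ 0 < δ := by
    have hc : Continuous fun δ : ℝ => 1 - 4 * δ := by fun_prop
    have hc2 : Continuous fun δ : ℝ => 4 * δ := by fun_prop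
    have h1 : ∀ᶠ δ : ℝ in 𝓝 0, ∀ a ∈ A.roots.toFinset, ‖a‖ < 1 - 4 * δ := by
      rw [Finset.eventually_all]
      intro a ha
      apply hc.continuousAt.eventually_const_lt
      rw [Multiset.mem_toFinset, mem_roots hA] at ha
      simpa using hroot a ha
    have h2 : ∀ᶠ δ : ℝ in 𝓝 0, δ < 1 / 8 := eventually_lt_nhds (by norm_num)
    have h3 : ∀ᶠ δ : ℝ in 𝓝 0, 4 * δ < κ := hc2.continuousAt.eventually_lt_const (by simpa using hκ)
    filter_upwards [nhdsWithin_le_nhds h1, nhdsWithin_le_nhds h2, nhdsWithin_le_nhds h3,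
      self_mem_nhdsWithin] with δ g1 g2 g3 g4
    exact ⟨g1, g2, g3, g4⟩
  obtain ⟨δ, h1, h2, h3, h4⟩ := hev.exists
  obtain ⟨B1, hB1⟩ := (isCompact_closedBall (0 : ℂ) 2).exists_bound_of_continuousOn
    (f := fun u => A.eval u) (by fun_prop)
  obtain ⟨B2, hB2⟩ := (isCompact_closedBall (0 : ℂ) 2).exists_bound_of_continuousOn
    (f := fun u => (derivative A).eval u) (by fun_prop)
  have hlead : 0 < ‖A.leadingCoeff‖ := norm_pos_iff.2 (leadingCoeff_ne_zero.2 hA)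
  have hr : ∀ a, A.eval a = 0 → ‖a‖ ≤ 1 - 4 * δ := by
    intro a ha
    apply (h1 a _).le
    rw [Multiset.mem_toFinset, mem_roots hA]
    exact ha
  refine ⟨δ, ‖A.leadingCoeff‖ * δ ^ Multiset.card A.roots, 1 + |B1| + |B2|, h4, h2.le, h3.le,
    by positivity, ?_, hr, ?_, ?_⟩
  · have := abs_nonneg B1
    have := abs_nonneg B2
    linarith
  · intro u hu
    have hs : A.Splits := IsAlgClosed.splits A
    rw [hs.eval_eq_prod_roots, norm_mul]
    gcongr
    apply prod_lower u h4.le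
    intro a ha
    have h5 := hr a ((mem_roots hA).1 ha)
    have h6 := norm_sub_norm_le u a
    linarith
  · intro u hu
    have hu' : u ∈ closedBall (0 : ℂ) 2 := by rwa [mem_closedBall_zero_iff]
    have g1 := hB1 u hu'
    have g2 := hB2 u hu'
    have := le_abs_self B1
    have := le_abs_self B2
    have := abs_nonneg B1
    have := abs_nonneg B2
    constructor <;> linarith

/-- Growth of `P`. -/
theorem growth (hP : 0 < P.natDegree) : ∃ K R : ℝ, 1 ≤ K ∧ 1 ≤ R ∧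
    ∀ w : ℂ, R ≤ ‖w‖ → ‖w‖ ≤ K * ‖P.eval w‖ := by
  have hP0 : P ≠ 0 := by
    rintro rfl
    simp at hP
  have hlead : 0 < ‖P.leadingCoeff‖ := norm_pos_iff.2 (leadingCoeff_ne_zero.2 hP0)
  obtain ⟨M, hM⟩ : ∃ M : ℝ, M = 1 + ∑ i ∈ Finset.range (P.natDegree + 1), ‖P.coeff i‖ +
    1 / ‖P.leadingCoeff‖ := ⟨_, rfl⟩
  have hs0 : 0 ≤ ∑ i ∈ Finset.range (P.natDegree + 1), ‖P.coeff i‖ :=
    Finset.sum_nonneg fun i _ => norm_nonneg _
  have hl0 : 0 < 1 / ‖P.leadingCoeff‖ := by positivity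
  have hM1 : 1 ≤ M := by linarith
  have hcls : Cls P.natDegree M P := by
    refine ⟨rfl, fun i => ?_, ?_⟩
    · by_cases hi : i < P.natDegree + 1
      · have := Finset.single_le_sum (f := fun i => ‖P.coeff i‖) (fun i _ => norm_nonneg _)
          (Finset.mem_range.2 hi)
        linarith
      · rw [coeff_eq_zero_of_natDegree_lt (by omega), norm_zero]
        linarith
    · rw [div_le_iff₀ (by linarith)]
      have h1 : 1 = ‖P.leadingCoeff‖ * (1 / ‖P.leadingCoeff‖) := by field_simp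
      rw [h1]
      gcongr
      linarith
  refine ⟨2 * M, 2 * (M ^ 2 + 1), by linarith, by nlinarith, fun w hw => ?_⟩
  have h1 := hcls.growth hM1 (by omega) hw
  rw [div_le_iff₀ (by linarith)] at h1
  linarith

/-- `z` is captured if its orbit escapes or converges to an attracting fixed point. -/
def Capt (T : ℂ[X]) (z : ℂ) : Prop := Esc T z ∨ Att T z

theorem Capt.shift {T : ℂ[X]} {z : ℂ} (h : Capt T (T.eval z)) : Capt T z :=
  h.imp Esc.shift Att.shift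

theorem Capt.shifts {T : ℂ[X]} {k : ℕ} {z : ℂ} (h : Capt T ((fun w => T.eval w)^[k] z)) :
    Capt T z := by
  induction k generalizing z with
  | zero => exact h
  | succ k ih =>
    rw [Function.iterate_succ_apply] at h
    exact (ih h).shift

/-- The family. -/
noncomputable def TT (P A : ℂ[X]) (n : ℕ) (t : ℂ) : ℂ[X] := P.comp (X ^ n * A) + C t

theorem TT_eval (n : ℕ) (t z : ℂ) : (TT P A n t).eval z = P.eval (hh A n z) + t := by
  simp [TT, hh, eval_comp]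

theorem semi (n : ℕ) (t z : ℂ) (k : ℕ) : hh A n ((fun w => (TT P A n t).eval w)^[k] z) =
    (fun w => hh A n (P.eval w + t))^[k] (hh A n z) := by
  induction k generalizing z with
  | zero => rfl
  | succ k ih =>
    rw [Function.iterate_succ_apply, Function.iterate_succ_apply, ih, TT_eval]

theorem esc_two {M K R a₀ δ : ℝ} (hM : 0 ≤ M) (hK : 1 ≤ K) (hδ : 0 < δ)
    (hgr : ∀ w : ℂ, R ≤ ‖w‖ → ‖w‖ ≤ K * ‖P.eval w‖) (ha₀ : 0 < a₀)
    (hA₀ : ∀ u, 1 - 3 * δ ≤ ‖u‖ → a₀ ≤ ‖A.eval u‖) {n : ℕ} (hn : 1 ≤ n)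
    (hn1 : R ≤ 2 ^ (n - 1) * a₀) (hn2 : K * (2 + M) ≤ 2 ^ (n - 1) * a₀) {t : ℂ} (ht : ‖t‖ ≤ M)
    {z : ℂ} (hz : 2 ≤ ‖z‖) : Esc (TT P A n t) z := by
  have hstep : ∀ z : ℂ, 2 ≤ ‖z‖ → 2 * ‖z‖ ≤ ‖(TT P A n t).eval z‖ := by
    intro z hz
    have h1 : 2 ^ (n - 1) * a₀ * ‖z‖ ≤ ‖hh A n z‖ := by
      unfold hh
      rw [norm_mul, norm_pow]
      have h2 := hA₀ z (by linarith)
      have h3 : ‖z‖ ^ n = ‖z‖ ^ (n - 1) * ‖z‖ := by
        rw [← pow_succ]
        congr 1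
        omega
      rw [h3]
      calc 2 ^ (n - 1) * a₀ * ‖z‖ = 2 ^ (n - 1) * ‖z‖ * a₀ := by ring
        _ ≤ ‖z‖ ^ (n - 1) * ‖z‖ * ‖A.eval z‖ := by gcongr
    have h4 : 2 ^ (n - 1) * a₀ ≤ ‖hh A n z‖ := by
      refine le_trans ?_ h1
      have : 0 ≤ (2 : ℝ) ^ (n - 1) * a₀ := by positivity
      nlinarith
    have h5 := hgr _ (hn1.trans h4)
    have h6 : K * ((2 + M) * ‖z‖) ≤ K * ‖P.eval (hh A n z)‖ := by
      refine le_trans ?_ h5
      refine le_trans ?_ h1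
      calc K * ((2 + M) * ‖z‖) = K * (2 + M) * ‖z‖ := by ring
        _ ≤ _ := by gcongr
    have h7 := le_of_mul_le_mul_left h6 (by linarith)
    rw [TT_eval]
    have h8 := norm_sub_norm_le (P.eval (hh A n z)) (-t)
    rw [sub_neg_eq_add, norm_neg] at h8
    nlinarith
  have h1 : ∀ j : ℕ, 2 * 2 ^ j ≤ ‖(fun w : ℂ => (TT P A n t).eval w)^[j] z‖ := by
    intro j
    induction j with
    | zero => simpa using hz
    | succ j ih =>
      rw [Function.iterate_succ_apply']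
      have h2 : 2 ≤ ‖(fun w : ℂ => (TT P A n t).eval w)^[j] z‖ :=
        (le_mul_of_one_le_right (by norm_num) (one_le_pow₀ (by norm_num))).trans ih
      have h3 := hstep _ h2
      calc (2 : ℝ) * 2 ^ (j + 1) = 2 * (2 * 2 ^ j) := by ring
        _ ≤ 2 * ‖(fun w : ℂ => (TT P A n t).eval w)^[j] z‖ := by linarith
        _ ≤ _ := h3
  exact tendsto_atTop_mono h1
    (Tendsto.const_mul_atTop (by norm_num) (tendsto_pow_atTop_atTop_of_one_lt (by norm_num)))

/-- The critical points of the inner polynomial. -/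
theorem crit_inner (hA : A ≠ 0) {δ : ℝ} (hδ1 : δ ≤ 1 / 8)
    (hr : ∀ a, A.eval a = 0 → ‖a‖ ≤ 1 - 4 * δ) {n : ℕ} (hn : 1 ≤ n) {z : ℂ}
    (hz : (derivative (X ^ n * A)).eval z = 0) : ‖z‖ ≤ 1 - 4 * δ := by
  have hne : (X ^ n * A : ℂ[X]) ≠ 0 := mul_ne_zero (pow_ne_zero _ X_ne_zero) hA
  have hnd : (X ^ n * A : ℂ[X]).natDegree = n + A.natDegree := by
    rw [natDegree_mul (pow_ne_zero _ X_ne_zero) hA, natDegree_X_pow]
  have hdeg : 0 < (X ^ n * A : ℂ[X]).degree := by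
    rw [← natDegree_pos_iff_degree_pos, hnd]
    omega
  have h1 := rootSet_derivative_subset_convexHull_rootSet hdeg
  have hd : derivative (X ^ n * A : ℂ[X]) ≠ 0 := by
    intro h0
    have := derivative_eq_zero.1 h0
    rw [hnd] at this
    omega
  have h2 : z ∈ (derivative (X ^ n * A : ℂ[X])).rootSet ℂ := by
    rw [mem_rootSet]
    refine ⟨hd, ?_⟩
    simpa using hz
  have h3 : convexHull ℝ ((X ^ n * A : ℂ[X]).rootSet ℂ) ⊆ closedBall (0 : ℂ) (1 - 4 * δ) := by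
    apply convexHull_min _ (convex_closedBall _ _)
    intro a ha
    rw [mem_rootSet] at ha
    have h4 : (X ^ n * A : ℂ[X]).eval a = 0 := by simpa using ha.2
    rw [eval_mul, eval_pow, eval_X, mul_eq_zero] at h4
    rw [mem_closedBall_zero_iff]
    rcases h4 with h4 | h4
    · have h5 : a = 0 := by
        by_contra hne0
        exact absurd h4 (pow_ne_zero _ hne0)
      rw [h5, norm_zero]
      linarith
    · exact hr a h4
  have h4 := h3 (h1 h2)
  rwa [mem_closedBall_zero_iff] at h4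

theorem deriv_TT (n : ℕ) (t z : ℂ) : (derivative (TT P A n t)).eval z =
    (derivative (X ^ n * A)).eval z * (derivative P).eval (hh A n z) := by
  unfold TT hh
  rw [derivative_add, derivative_C, add_zero, derivative_comp]
  simp [eval_comp]

end Pool.Agent.Helper134.AS
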