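import Mathlib
import Pool.Agent.Helper134_AS.Comp

/-!
# The polynomials `P (z ^ n * A z) + t`: the criterion for hyperbolicity
-/

set_option autoImplicit false

open Polynomial Filter Topology Metric

namespace Pool.Agent.Helper134.AS

open Pool.Agent.H113R3.DH hiding Bad

variable {P A : ℂ[X]}

theorem dyn (hP : 0 < P.natDegree) (hA : A ≠ 0) (hroot : ∀ a, A.eval a = 0 → ‖a‖ < 1) {M κ : ℝ}
    (hM : 0 ≤ M) (hκ : 0 < κ) :
    ∃ δ a₀ a₁ ρ : ℝ, 0 < δ ∧ δ ≤ 1 / 8 ∧ 0 < a₀ ∧ 1 ≤ a₁ ∧ 0 < ρ ∧ ρ < 1 ∧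
      (∀ u, 1 - 3 * δ ≤ ‖u‖ → a₀ ≤ ‖A.eval u‖) ∧
      (∀ u, ‖u‖ ≤ 2 → ‖A.eval u‖ ≤ a₁ ∧ ‖(derivative A).eval u‖ ≤ a₁) ∧
      ∃ n₀ : ℕ, ∀ n, n₀ ≤ n → 1 ≤ n ∧
        (∀ u, ρ < ‖hh A n u‖ → ‖hh A n u‖ < ρ⁻¹ → 1 - δ ≤ ‖u‖ ∧ ‖u‖ ≤ 1 + δ) ∧
        ∀ t, ‖t‖ ≤ M → κ ≤ |‖P.eval 0 + t‖ - 1| →
          (∀ y, (derivative P).eval y = 0 → ∃ k : ℕ,
            ‖(fun w => hh A n (P.eval w + t))^[k + 1] y‖ ≤ ρ ∨
            ρ⁻¹ ≤ ‖(fun w => hh A n (P.eval w + t))^[k + 1] y‖) → Hyp (TT P A n t) := by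
  obtain ⟨δ, a₀, a₁, hδ0, hδ1, hδκ, ha₀, ha₁, hr, hA₀, hA₁⟩ := consts hA hroot hκ
  obtain ⟨K, R, hK, hR, hgr⟩ := growth hP
  obtain ⟨ρ₁, hρ₁, hcont⟩ := Metric.continuousAt_iff.1
    (P.continuous.continuousAt (x := (0 : ℂ))) (κ / 8) (by positivity)
  obtain ⟨B, hB⟩ := (isCompact_closedBall (0 : ℂ) 1).exists_bound_of_continuousOn
    (f := fun u => (derivative P).eval u) (by fun_prop)
  obtain ⟨b₁, hb₁, hb₁'⟩ : ∃ b₁ : ℝ, 1 ≤ b₁ ∧ ∀ w : ℂ, ‖w‖ ≤ 1 → ‖(derivative P).eval w‖ ≤ b₁ := by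
    refine ⟨1 + |B|, by linarith [abs_nonneg B], fun w hw => ?_⟩
    have := hB w (by rwa [mem_closedBall_zero_iff])
    have := le_abs_self B
    linarith
  obtain ⟨ρ, hρ0, hρ1, hρ2, hρ3, hρ4⟩ : ∃ ρ : ℝ, 0 < ρ ∧ ρ < 1 ∧ ρ < ρ₁ ∧ R ≤ ρ⁻¹ ∧
      K * (M + 3) ≤ ρ⁻¹ := by
    have hKM : 0 < K * (M + 3) := by positivity
    refine ⟨min (min (1 / 2) (ρ₁ / 2)) (min R⁻¹ (K * (M + 3))⁻¹), by positivity, ?_, ?_, ?_, ?_⟩
    · have : min (min (1 / 2) (ρ₁ / 2)) (min R⁻¹ (K * (M + 3))⁻¹) ≤ 1 / 2 :=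
        (min_le_left _ _).trans (min_le_left _ _)
      linarith
    · have : min (min (1 / 2) (ρ₁ / 2)) (min R⁻¹ (K * (M + 3))⁻¹) ≤ ρ₁ / 2 :=
        (min_le_left _ _).trans (min_le_right _ _)
      linarith
    · rw [le_inv_comm₀ (by linarith) (by positivity)]
      exact (min_le_right _ _).trans (min_le_left _ _)
    · rw [le_inv_comm₀ hKM (by positivity)]
      exact (min_le_right _ _).trans (min_le_right _ _)
  refine ⟨δ, a₀, a₁, ρ, hδ0, hδ1, ha₀, ha₁, hρ0, hρ1, hA₀, hA₁, ?_⟩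
  have hPnear : ∀ w : ℂ, ‖w‖ ≤ ρ → ‖P.eval w - P.eval 0‖ ≤ κ / 8 := by
    intro w hw
    have := hcont (x := w) (by rw [dist_zero_right]; linarith)
    rw [dist_eq_norm] at this
    exact this.le
  have hPfar : ∀ w : ℂ, ρ⁻¹ ≤ ‖w‖ → M + 3 ≤ ‖P.eval w‖ := by
    intro w hw
    have h1 := hgr w (hρ3.trans hw)
    have h2 : K * (M + 3) ≤ K * ‖P.eval w‖ := (hρ4.trans hw).trans h1
    exact le_of_mul_le_mul_left h2 (by linarith)
  -- large `n`
  have e1 : ∀ᶠ n : ℕ in atTop, a₁ * (1 - δ) ^ n ≤ ρ := by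
    have h1 := (tendsto_pow_atTop_nhds_zero_of_lt_one (by linarith : 0 ≤ 1 - δ)
      (by linarith)).const_mul a₁
    rw [mul_zero] at h1
    exact h1.eventually_le_const hρ0
  have e2 : ∀ᶠ n : ℕ in atTop, ρ⁻¹ / a₀ ≤ (1 + δ) ^ n :=
    (tendsto_pow_atTop_atTop_of_one_lt (by linarith)).eventually_ge_atTop _
  have e3 : ∀ᶠ n : ℕ in atTop, 2 * (R + K * (2 + M)) / a₀ ≤ (2 : ℝ) ^ n :=
    (tendsto_pow_atTop_atTop_of_one_lt (by norm_num)).eventually_ge_atTop _
  have e4 : ∀ᶠ n : ℕ in atTop, (n : ℝ) * (1 - 2 * δ) ^ n ≤ 1 / (6 * a₁ * b₁) :=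
    (tendsto_self_mul_const_pow_of_lt_one (by linarith : 0 ≤ 1 - 2 * δ)
      (by linarith)).eventually_le_const (by positivity)
  obtain ⟨n₀, hn₀⟩ := eventually_atTop.1 ((eventually_ge_atTop 1).and
    (e1.and (e2.and (e3.and e4))))
  refine ⟨n₀, fun n hn => ?_⟩
  obtain ⟨hn1, f1, f2, f3, f4⟩ := hn₀ n hn
  rw [div_le_iff₀ ha₀] at f2 f3
  have hn0' : (1 : ℝ) ≤ n := by exact_mod_cast hn1
  have hsmall : ∀ u : ℂ, ‖u‖ ≤ 1 - δ → ‖hh A n u‖ ≤ ρ := by
    intro u hu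
    unfold hh
    rw [norm_mul, norm_pow]
    have g0 : 0 ≤ (1 - δ) ^ n := pow_nonneg (by linarith) _
    have g1 := (hA₁ u (by linarith)).1
    calc ‖u‖ ^ n * ‖A.eval u‖ ≤ (1 - δ) ^ n * a₁ := by
          gcongr
      _ = a₁ * (1 - δ) ^ n := mul_comm _ _
      _ ≤ ρ := f1
  have hbig : ∀ u : ℂ, 1 + δ ≤ ‖u‖ → ρ⁻¹ ≤ ‖hh A n u‖ := by
    intro u hu
    unfold hh
    rw [norm_mul, norm_pow]
    refine f2.trans ?_
    gcongr
    exact hA₀ u (by linarith)
  have hpow : (2 : ℝ) ^ n = 2 * 2 ^ (n - 1) := by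
    rw [← pow_succ']
    congr 1
    omega
  have hKM : 0 ≤ K * (2 + M) := by positivity
  refine ⟨hn1, ?_, ?_⟩
  · intro u h1 h2
    constructor
    · by_contra hcon
      have := hsmall u (not_le.1 hcon).le
      linarith
    · by_contra hcon
      have := hbig u (not_le.1 hcon).le
      linarith
  · intro t ht htκ horb
    have hesc : ∀ z : ℂ, 2 ≤ ‖z‖ → Esc (TT P A n t) z := fun z hz =>
      esc_two hM hK hδ0 hgr ha₀ hA₀ hn1 (by
        rw [hpow] at f3
        nlinarith) (by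
        rw [hpow] at f3
        nlinarith) ht hz
    -- captured at infinity
    have hinf : ∀ z : ℂ, ρ⁻¹ ≤ ‖hh A n z‖ → Capt (TT P A n t) z := by
      intro z hz
      left
      apply Esc.shift
      apply hesc
      rw [TT_eval]
      have h1 := hPfar _ hz
      have h2 := norm_sub_norm_le (P.eval (hh A n z)) (-t)
      rw [sub_neg_eq_add, norm_neg] at h2
      linarith
    have hzero : ∀ z : ℂ, ‖hh A n z‖ ≤ ρ → Capt (TT P A n t) z := by
      intro z hz
      apply Capt.shift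
      have h1 := hPnear _ hz
      have h2 : ‖(TT P A n t).eval z - (P.eval 0 + t)‖ ≤ κ / 8 := by
        rw [TT_eval]
        have : P.eval (hh A n z) + t - (P.eval 0 + t) = P.eval (hh A n z) - P.eval 0 := by ring
        rw [this]
        exact h1
      rcases le_total 1 ‖P.eval 0 + t‖ with h3 | h3
      · rw [abs_of_nonneg (by linarith)] at htκ
        apply hinf
        apply hbig
        have h4 := norm_sub_norm_le (P.eval 0 + t) ((TT P A n t).eval z)
        rw [norm_sub_rev] at h4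
        linarith
      · rw [abs_of_nonpos (by linarith)] at htκ
        right
        have h4 := norm_sub_norm_le ((TT P A n t).eval z) (P.eval 0 + t)
        have hTF : TT P A n t = F n A (P - C (P.coeff 0)) (P.eval 0 + t) := by
          unfold TT
          rw [comp_eq, coeff_zero_eq_eval_zero]
        rw [hTF]
        rw [hTF] at h4
        have hQ : ∀ w : ℂ, (P - C (P.coeff 0)).eval w = P.eval w - P.eval 0 := by
          intro w
          rw [eval_sub, eval_C, coeff_zero_eq_eval_zero]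
        have hw1 : ∀ w : ℂ, ‖w‖ ≤ 1 - 2 * δ → ‖w ^ n * A.eval w‖ ≤ ρ := fun w hw =>
          hsmall w (by linarith)
        refine att_of_inner (ρ := 1 - 2 * δ) (b := κ / 8) ?_ (by linarith) ?_ (by
          rw [hTF] at h2
          linarith)
        · intro w hw
          rw [hQ]
          exact hPnear _ (hw1 w hw)
        · intro w hw
          have g1 := hw1 w hw
          rw [norm_mul, derivative_sub, derivative_C, sub_zero]
          have g2 := hb₁' _ (g1.trans hρ1.le)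
          have g3 := hA₁ w (by linarith)
          have g4 : ‖w‖ ^ (n - 1) ≤ 4 / 3 * (1 - 2 * δ) ^ n := by
            have g5 : (1 - 2 * δ) ^ n = (1 - 2 * δ) * (1 - 2 * δ) ^ (n - 1) := by
              rw [← pow_succ']
              congr 1
              omega
            have g6 : ‖w‖ ^ (n - 1) ≤ (1 - 2 * δ) ^ (n - 1) := by gcongr
            have g7 : 0 ≤ (1 - 2 * δ) ^ (n - 1) := pow_nonneg (by linarith) _
            rw [g5]
            nlinarith
          have g5 : ‖w‖ ^ n ≤ (1 - 2 * δ) ^ n := by gcongr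
          have g6 : 0 ≤ (1 - 2 * δ) ^ n := pow_nonneg (by linarith) _
          have g7 : ‖(n : ℂ) * w ^ (n - 1) * A.eval w + w ^ n * (derivative A).eval w‖ ≤
              3 * a₁ * (n * (1 - 2 * δ) ^ n) := by
            refine (norm_add_le _ _).trans ?_
            rw [norm_mul, norm_mul, norm_mul, norm_pow, norm_pow, Complex.norm_natCast]
            have g8 : (n : ℝ) * ‖w‖ ^ (n - 1) * ‖A.eval w‖ ≤ n * (4 / 3 * (1 - 2 * δ) ^ n) * a₁ := by
              gcongr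
              exact g3.1
            have g9 : ‖w‖ ^ n * ‖(derivative A).eval w‖ ≤ (1 - 2 * δ) ^ n * a₁ := by
              gcongr
              exact g3.2
            have g10 : (1 - 2 * δ) ^ n * a₁ ≤ n * ((1 - 2 * δ) ^ n * a₁) := by
              have : 0 ≤ (1 - 2 * δ) ^ n * a₁ := by positivity
              nlinarith
            have g11 : 0 ≤ (n : ℝ) * ((1 - 2 * δ) ^ n * a₁) := by positivity
            linarith
          calc _ ≤ 3 * a₁ * (n * (1 - 2 * δ) ^ n) * b₁ := by gcongr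
            _ ≤ 3 * a₁ * (1 / (6 * a₁ * b₁)) * b₁ := by gcongr
            _ = 1 / 2 := by
              field_simp
              norm_num
    intro z hz
    rw [deriv_TT, mul_eq_zero] at hz
    rcases hz with hz | hz
    · have h1 := crit_inner hA hδ1 hr hn1 hz
      exact hzero z (hsmall z (by linarith))
    · obtain ⟨k, hk⟩ := horb _ hz
      have h1 := semi (P := P) (A := A) n t z (k + 1)
      rw [← h1] at hk
      have h2 : Capt (TT P A n t) ((fun w => (TT P A n t).eval w)^[k + 1] z) := by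
        rcases hk with hk | hk
        · exact hzero _ hk
        · exact hinf _ hk
      exact h2.shifts

end Pool.Agent.Helper134.AS
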