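import Mathlib
import Pool.Agent.Helper134_AR.Near

/-!
# Families with a nearly affine logarithm: the next curve and the strip
-/

set_option autoImplicit false

open Set Filter Topology Metric MeasureTheory

namespace Pool.Agent.Helper134.AS

open Pool.Agent.Helper134.AR (Cur near_affine strip_area)

variable {F : ℂ → ℂ → ℂ} {q : ℂ → ℝ} {A : Finset ℂ} {n : ℕ} {ρ θ : ℝ} {X : ℂ → ℂ}

/-- The image of the marked point. -/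
def nxt (F : ℂ → ℂ → ℂ) (X : ℂ → ℂ) (ζ : ℂ) : ℂ := F ζ (X ζ)

/-- The parameters for which the orbit of the marked point is never captured. -/
def Bad (F : ℂ → ℂ → ℂ) (ρ : ℝ) (X : ℂ → ℂ) : Set ℂ :=
  {ζ | ∀ k : ℕ, ρ < ‖(F ζ)^[k] (X ζ)‖ ∧ ‖(F ζ)^[k] (X ζ)‖ < ρ⁻¹}

theorem Bad_nxt : Bad F ρ X ⊆ Bad F ρ (nxt F X) := by
  intro ζ h k
  have h1 := h (k + 1)
  rw [Function.iterate_succ_apply] at h1
  exact h1

theorem Bad_zero {ζ : ℂ} (h : ζ ∈ Bad F ρ X) : ρ < ‖X ζ‖ ∧ ‖X ζ‖ < ρ⁻¹ := h 0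

theorem Bad_one {ζ : ℂ} (h : ζ ∈ Bad F ρ X) :
    ρ < ‖nxt F X ζ‖ ∧ ‖nxt F X ζ‖ < ρ⁻¹ := h 1

/-- Along nearly affine curves the logarithm of the image is nearly affine. -/
def Loc (F : ℂ → ℂ → ℂ) (q : ℂ → ℝ) (A : Finset ℂ) (n : ℕ) (ρ θ lam₀ : ℝ) : Prop :=
  ∀ (z : ℂ) (T : ℝ) (lam : ℂ) (X : ℂ → ℂ), Cur lam₀ z T lam X → ∀ v ∈ ball z T, ∀ σ d : ℝ,
    0 < σ → σ ≤ T / 200 → 0 < d → d ≤ 1 → (∀ y ∈ A, d ≤ ‖X v - y‖) →
    5 / 4 * ‖lam‖ * σ ≤ θ * d → (ρ < ‖X v‖ ∧ ‖X v‖ < ρ⁻¹) →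
    (ρ < ‖nxt F X v‖ ∧ ‖nxt F X v‖ < ρ⁻¹) →
    ∃ (l l' : ℂ → ℂ) (Λ : ℂ), l v = 0 ∧
      (∀ ζ ∈ ball v σ, nxt F X ζ = nxt F X v * Complex.exp (l ζ)) ∧
      (∀ ζ ∈ ball v σ, HasDerivAt l (l' ζ) ζ) ∧
      (∀ ζ ∈ ball v σ, ‖l' ζ - Λ‖ ≤ 2 + ‖Λ‖ / 50) ∧
      1 / 2 * (n * q (X v) * ‖lam‖) ≤ ‖Λ‖ ∧ ‖Λ‖ ≤ 3 / 2 * (n * q (X v) * ‖lam‖)

variable {lam₀ T : ℝ} {z lam : ℂ}

theorem step (hloc : Loc F q A n ρ θ lam₀)
    (h : Cur lam₀ z T lam X) (hlam₀ : 0 < lam₀) {v : ℂ} (hv : v ∈ ball z T)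
    (hρ : 0 < ρ) (hXv : ρ < ‖X v‖ ∧ ‖X v‖ < ρ⁻¹) (hnv : ρ < ‖nxt F X v‖ ∧ ‖nxt F X v‖ < ρ⁻¹)
    {θ' T' d g : ℝ} (hT' : 0 < T') (hg : g = n * q (X v) * ‖lam‖) (hg200 : 200 ≤ g)
    (hglow : lam₀ ≤ 1 / 2 * ρ * g) (hθ' : 0 < θ') (hθ1 : θ' ≤ 1 / 600) (hθ2 : 4 * θ' ≤ θ)
    (hθ3 : 2 * θ' ≤ ρ) (hd : 0 < d) (hd1 : d ≤ 1)
    (hdist : ∀ y ∈ A, d ≤ ‖X v - y‖)
    (a1 : T' ≤ θ' * T) (a2 : T' * ‖lam‖ ≤ θ' * d) (a3 : T' * g ≤ θ') :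
    (∃ lam' : ℂ, Cur lam₀ v T' lam' (nxt F X) ∧ 1 / 2 * ρ * g ≤ ‖lam'‖) ∧
    ∀ ζ ∈ ball v (2 * T'), ρ / 2 ≤ ‖nxt F X ζ‖ ∧ ‖nxt F X ζ‖ ≤ 2 / ρ := by
  have hT := h.hT
  have hT2 := h.T_le
  have hlam : 0 < ‖lam‖ := hlam₀.trans_le h.hlow
  obtain ⟨l, l', Λ, hl0, hl1, hl2, hl3, hΛ1, hΛ2⟩ := hloc z T lam X h v hv (2 * T') d
    (by positivity) (by
      have : θ' * T ≤ 1 / 600 * T := by gcongr
      linarith) hd hd1 hdist (by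
      have : 4 * θ' * d ≤ θ * d := by gcongr
      nlinarith) hXv hnv
  rw [← hg] at hΛ1 hΛ2
  have hsub : closedBall v (2 * T') ⊆ ball z (2 * T) := by
    intro x hx
    rw [mem_closedBall] at hx
    rw [mem_ball] at hv ⊢
    have := dist_triangle x v z
    have : θ' * T ≤ 1 / 600 * T := by gcongr
    linarith
  have hvv : v ∈ ball v (2 * T') := mem_ball_self (by positivity)
  -- the logarithm is small
  have hlsmall : ∀ ζ ∈ ball v (2 * T'), ‖l ζ‖ ≤ 1 / 100 := by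
    intro ζ hζ
    have h1 := near_affine (convex_ball v (2 * T')) (f := l) (lam := Λ) (ε := 2 + ‖Λ‖ / 50)
      (fun x hx => (hl2 x hx).differentiableAt) (fun x hx => by
        rw [(hl2 x hx).deriv]
        exact hl3 x hx) hζ hvv
    rw [hl0, sub_zero] at h1
    have h2 : ‖l ζ‖ ≤ ‖Λ * (ζ - v)‖ + (2 + ‖Λ‖ / 50) * ‖ζ - v‖ := by
      have := norm_sub_norm_le (l ζ) (Λ * (ζ - v))
      linarith
    rw [norm_mul] at h2
    have h3 : ‖ζ - v‖ ≤ 2 * T' := by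
      rw [mem_ball, dist_eq_norm] at hζ
      exact hζ.le
    have h4 : ‖Λ‖ * ‖ζ - v‖ + (2 + ‖Λ‖ / 50) * ‖ζ - v‖ ≤
        3 / 2 * g * (2 * T') + (2 + 3 / 2 * g / 50) * (2 * T') := by gcongr
    have h5 : θ' * T ≤ θ' * (1 / 2) := by gcongr
    nlinarith
  have hexp : ∀ ζ ∈ ball v (2 * T'), ‖Complex.exp (l ζ) - 1‖ ≤ 1 / 50 := by
    intro ζ hζ
    have h1 := hlsmall ζ hζ
    have h2 := Complex.norm_exp_sub_one_le (x := l ζ) (by linarith)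
    linarith
  have hv1 : 0 < ‖nxt F X v‖ := hρ.trans hnv.1
  have hmod : ∀ ζ ∈ ball v (2 * T'), 49 / 50 * ‖nxt F X v‖ ≤ ‖nxt F X ζ‖ ∧
      ‖nxt F X ζ‖ ≤ 51 / 50 * ‖nxt F X v‖ := by
    intro ζ hζ
    have h1 := hexp ζ hζ
    rw [hl1 ζ hζ, norm_mul]
    have h2 := norm_sub_norm_le (Complex.exp (l ζ)) 1
    have h3 := norm_sub_norm_le 1 (Complex.exp (l ζ))
    rw [norm_sub_rev] at h3
    rw [norm_one] at h2 h3
    constructor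
    · rw [mul_comm]
      gcongr
      linarith
    · rw [mul_comm (51 / 50 : ℝ)]
      gcongr
      linarith
  have hder : ∀ ζ ∈ ball v (2 * T'), HasDerivAt (nxt F X)
      (nxt F X v * (Complex.exp (l ζ) * l' ζ)) ζ := by
    intro ζ hζ
    have h1 := (hl2 ζ hζ).cexp.const_mul (nxt F X v)
    refine h1.congr_of_eventuallyEq ?_
    filter_upwards [isOpen_ball.mem_nhds hζ] with x hx
    exact hl1 x hx
  refine ⟨⟨nxt F X v * Λ, ⟨hT', ?_, ?_, ?_, ?_, ?_⟩, ?_⟩, ?_⟩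
  · exact hsub.trans (ball_subset_closedBall.trans h.hsub)
  · intro ζ hζ
    exact (hder ζ hζ).differentiableAt
  · intro ζ hζ
    rw [(hder ζ hζ).deriv]
    have h1 := hexp ζ hζ
    have h2 := hl3 ζ hζ
    have h3 : nxt F X v * (Complex.exp (l ζ) * l' ζ) - nxt F X v * Λ =
        nxt F X v * ((Complex.exp (l ζ) - 1) * l' ζ + (l' ζ - Λ)) := by ring
    rw [h3, norm_mul, norm_mul]
    have h4 : ‖l' ζ‖ ≤ ‖Λ‖ + (2 + ‖Λ‖ / 50) := by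
      have := norm_sub_norm_le (l' ζ) Λ
      linarith
    have h6 : ‖(Complex.exp (l ζ) - 1) * l' ζ + (l' ζ - Λ)‖ ≤ ‖Λ‖ / 4 := by
      refine (norm_add_le _ _).trans ?_
      rw [norm_mul]
      have e1 : ‖Complex.exp (l ζ) - 1‖ * ‖l' ζ‖ ≤ 1 / 50 * (‖Λ‖ + (2 + ‖Λ‖ / 50)) := by gcongr
      linarith
    calc ‖nxt F X v‖ * ‖(Complex.exp (l ζ) - 1) * l' ζ + (l' ζ - Λ)‖
        ≤ ‖nxt F X v‖ * (‖Λ‖ / 4) := by gcongr
      _ = _ := by ring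
  · rw [norm_mul]
    calc lam₀ ≤ 1 / 2 * ρ * g := hglow
      _ = ρ * (1 / 2 * g) := by ring
      _ ≤ ‖nxt F X v‖ * ‖Λ‖ := by gcongr; exact hnv.1.le
  · rw [norm_mul]
    calc ‖nxt F X v‖ * ‖Λ‖ * T' ≤ ρ⁻¹ * (3 / 2 * g) * T' := by
          gcongr; exact hnv.2.le
      _ = 3 / 2 * ρ⁻¹ * (T' * g) := by ring
      _ ≤ 3 / 2 * ρ⁻¹ * (ρ / 2) := by gcongr; linarith
      _ = 3 / 4 := by field_simp; norm_num
      _ ≤ 1 := by norm_num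
  · rw [norm_mul]
    calc 1 / 2 * ρ * g = ρ * (1 / 2 * g) := by ring
      _ ≤ ‖nxt F X v‖ * ‖Λ‖ := by gcongr; exact hnv.1.le
  · intro ζ hζ
    have h1 := hmod ζ hζ
    constructor
    · nlinarith [hnv.1]
    · have h2 : ‖nxt F X v‖ ≤ ρ⁻¹ := hnv.2.le
      have h3 : 2 / ρ = 2 * ρ⁻¹ := by ring
      rw [h3]
      linarith

/-- The strip: in a disc of definite size the parameters for which the next marked point has
modulus in a fixed range have small area. -/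
theorem strip (hloc : Loc F q A n ρ θ lam₀)
    (h : Cur lam₀ z T lam X) {v : ℂ} (hv : v ∈ ball z T)
    (hρ : 0 < ρ) (hρ1 : ρ < 1) (hXv : ρ < ‖X v‖ ∧ ‖X v‖ < ρ⁻¹)
    (hnv : ρ < ‖nxt F X v‖ ∧ ‖nxt F X v‖ < ρ⁻¹)
    {σ d g : ℝ} (hσ : 0 < σ) (hg : g = n * q (X v) * ‖lam‖) (hg200 : 200 ≤ g)
    (hσT : σ ≤ T / 200) (hd : 0 < d) (hd1 : d ≤ 1)
    (hdist : ∀ y ∈ A, d ≤ ‖X v - y‖)
    (hσd : 5 / 4 * ‖lam‖ * σ ≤ θ * d) :
    volume {x ∈ ball v σ | ρ / 2 ≤ ‖nxt F X x‖ ∧ ‖nxt F X x‖ ≤ 2 / ρ} ≤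
      ENNReal.ofReal (18 * (Real.log (2 / ρ ^ 2) + 1) * σ / g) := by
  have hT := h.hT
  obtain ⟨l, l', Λ, hl0, hl1, hl2, hl3, hΛ1, hΛ2⟩ := hloc z T lam X h v hv σ d hσ hσT hd hd1
    hdist hσd hXv hnv
  rw [← hg] at hΛ1 hΛ2
  have hlogpos : 0 ≤ Real.log (2 / ρ ^ 2) := by
    apply Real.log_nonneg
    rw [one_le_div (by positivity)]
    nlinarith
  have hmain := strip_area (l := l) (v := v) (Λ := Λ) (σ := σ) (h := Real.log (2 / ρ ^ 2) + 1) hσ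
    (by linarith) (by linarith) (fun x hx => (hl2 x hx).differentiableAt) (by
      intro x hx
      rw [(hl2 x hx).deriv]
      have h1 := hl3 x hx
      linarith) hl0
  refine (measure_mono ?_).trans (hmain.trans ?_)
  · rintro x ⟨hx, hx1, hx2⟩
    refine ⟨hx, ?_⟩
    rw [hl1 x hx, norm_mul, Complex.norm_exp] at hx1 hx2
    have hv1 : 0 < ‖nxt F X v‖ := hρ.trans hnv.1
    have e1 : Real.exp (l x).re ≤ 2 / ρ ^ 2 := by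
      have h1 : ρ * Real.exp (l x).re ≤ 2 / ρ := by
        refine le_trans ?_ hx2
        gcongr
        exact hnv.1.le
      rw [le_div_iff₀ hρ] at h1
      rw [le_div_iff₀ (by positivity)]
      nlinarith
    have e2 : (2 / ρ ^ 2)⁻¹ ≤ Real.exp (l x).re := by
      have h1 : ρ / 2 ≤ ρ⁻¹ * Real.exp (l x).re := by
        refine hx1.trans ?_
        gcongr
        exact hnv.2.le
      rw [inv_div]
      have h2 : ρ * (ρ / 2) ≤ ρ * (ρ⁻¹ * Real.exp (l x).re) := by gcongr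
      rw [← mul_assoc, mul_inv_cancel₀ hρ.ne', one_mul] at h2
      nlinarith
    have e3 : (l x).re ≤ Real.log (2 / ρ ^ 2) := by
      rw [Real.le_log_iff_exp_le (by positivity)]
      exact e1
    have e4 : -Real.log (2 / ρ ^ 2) ≤ (l x).re := by
      rw [← Real.log_inv]
      rw [Real.log_le_iff_le_exp (by positivity)]
      exact e2
    rw [abs_lt]
    constructor <;> linarith
  · apply ENNReal.ofReal_le_ofReal
    rw [div_le_div_iff₀ (by linarith) (by linarith)]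
    have h1 : 0 ≤ (Real.log (2 / ρ ^ 2) + 1) * σ := by positivity
    nlinarith

end Pool.Agent.Helper134.AS
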