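import Mathlib
import Pool.Agent.Helper134_AS.Strips

/-!
# The area bound for all nearly affine curves
-/

set_option autoImplicit false

open Set Filter Topology Metric MeasureTheory

namespace Pool.Agent.Helper134.AS

open Pool.Agent.Helper134.AR (Cur tsum_le_of_disjoint exists_t volume_cball volume_oball)

variable {A : Finset ℂ} {ρ lam₀ : ℝ}

theorem curve_bound {θ c : ℝ} {m : ℕ} (hm : 2 ≤ m) (hθ : 0 < θ)
    (hlam₀ : 0 < lam₀) (hρ : 0 < ρ) (hρ1 : ρ < 1) (hc : 0 < c) :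
    ∃ C : ℝ, 0 < C ∧ ∃ n₁ : ℕ, ∀ n : ℕ, n₁ ≤ n → ∀ (F : ℂ → ℂ → ℂ) (q : ℂ → ℝ),
      Loc F q A n ρ θ lam₀ → Low F q A ρ c m →
      ∀ (z : ℂ) (T : ℝ) (lam : ℂ) (X : ℂ → ℂ), Cur lam₀ z T lam X →
      volume (Bad F ρ X ∩ ball z T) ≤
        ENNReal.ofReal (C * (n : ℝ) ^ (-(2 / ((m : ℝ) - 1))) / ‖lam‖ ^ 2) := by
  have hpi := Real.pi_pos
  have hm1 : (0 : ℝ) < (m : ℝ) - 1 := by
    have : (2 : ℝ) ≤ m := by exact_mod_cast hm
    linarith
  obtain ⟨θ', hθ'0, hθ'1, hθ'2, hθ'3⟩ : ∃ θ' : ℝ, 0 < θ' ∧ θ' ≤ 1 / 600 ∧ 4 * θ' ≤ θ ∧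
      2 * θ' ≤ ρ := by
    refine ⟨min (1 / 600) (min (θ / 4) (ρ / 2)), by positivity, min_le_left _ _, ?_, ?_⟩
    · have := (min_le_right (1 / 600 : ℝ) (min (θ / 4) (ρ / 2))).trans (min_le_left _ _)
      linarith
    · have := (min_le_right (1 / 600 : ℝ) (min (θ / 4) (ρ / 2))).trans (min_le_right _ _)
      linarith
  -- the constant `G`
  obtain ⟨G, hG1, hG2, hG3, hG4⟩ : ∃ G : ℝ, 1 ≤ G ∧ 200 ≤ G * lam₀ ∧ 2 ≤ ρ * G ∧
      4 / ρ ^ 2 * ((144 + 4096 * A.card) / (θ' ^ 2 * G ^ 2)) ≤ 1 / 4 := by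
    obtain ⟨B, hB⟩ : ∃ B : ℝ, B = 4 / ρ ^ 2 * ((144 + 4096 * A.card) / θ' ^ 2) := ⟨_, rfl⟩
    have hB0 : 0 ≤ B := by rw [hB]; positivity
    refine ⟨1 + 200 / lam₀ + 2 / ρ + 4 * B, ?_, ?_, ?_, ?_⟩
    · have h1 : 0 ≤ 200 / lam₀ := by positivity
      have h2 : 0 ≤ 2 / ρ := by positivity
      linarith
    · have h3 : 0 ≤ (1 + 2 / ρ + 4 * B) * lam₀ := by positivity
      have h4 : (1 + 200 / lam₀ + 2 / ρ + 4 * B) * lam₀ =
          200 + (1 + 2 / ρ + 4 * B) * lam₀ := by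
        field_simp
        ring
      linarith
    · have h3 : 0 ≤ ρ * (1 + 200 / lam₀ + 4 * B) := by positivity
      have h4 : ρ * (1 + 200 / lam₀ + 2 / ρ + 4 * B) =
          2 + ρ * (1 + 200 / lam₀ + 4 * B) := by
        field_simp
        ring
      linarith
    · set G := 1 + 200 / lam₀ + 2 / ρ + 4 * B with hG
      have h1 : 0 ≤ 200 / lam₀ := by positivity
      have h2 : 0 ≤ 2 / ρ := by positivity
      have hG1 : 1 ≤ G := by linarith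
      have hG4 : 4 * B ≤ G := by linarith
      have e : 4 / ρ ^ 2 * ((144 + 4096 * A.card) / (θ' ^ 2 * G ^ 2)) = B / G ^ 2 := by
        rw [hB]
        field_simp
      rw [e, div_le_iff₀ (by positivity)]
      have h3 : G ≤ G ^ 2 := by nlinarith
      linarith
  obtain ⟨ε, hε0, hε⟩ : ∃ ε : ℝ, 0 < ε ∧ 4 / ρ ^ 2 * (36 * ε / (Real.pi * θ' ^ 2)) ≤ 1 / 4 := by
    refine ⟨ρ ^ 2 * (Real.pi * θ' ^ 2) / (4 * 36 * 4), by positivity, ?_⟩
    apply le_of_eq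
    field_simp
  obtain ⟨n₁, hn₁⟩ := eset_bound (A := A) (m := m) hθ hlam₀ hρ hρ1 hθ'0 hθ'1 hc hε0
  obtain ⟨n₂, hn₂⟩ := exists_nat_ge (G / c)
  obtain ⟨δ₀, hδ₀⟩ : ∃ δ₀ : ℝ, δ₀ = A.card * (9 * Real.pi) + 1 := ⟨_, rfl⟩
  have hδ₀0 : 0 < δ₀ := by rw [hδ₀]; positivity
  refine ⟨2 * (δ₀ * (G / c) ^ (2 / ((m : ℝ) - 1))), by positivity, max (max n₁ n₂) 1,
    fun n hn F q hloc hlow => ?_⟩
  have hn1 : n₁ ≤ n := (le_max_left _ _).trans ((le_max_left _ _).trans hn)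
  have hn2 : n₂ ≤ n := (le_max_right _ _).trans ((le_max_left _ _).trans hn)
  have hn3 : 1 ≤ n := (le_max_right _ _).trans hn
  have hn0 : (0 : ℝ) < n := by exact_mod_cast hn3
  have hGn : G / c ≤ n := hn₂.trans (by exact_mod_cast hn2)
  have hG0 : 0 < G := by linarith
  obtain ⟨T₀, hT₀⟩ : ∃ T₀ : ℝ, T₀ = (G / c / n) ^ (1 / ((m : ℝ) - 1)) := ⟨_, rfl⟩
  have hT₀0 : 0 < T₀ := by rw [hT₀]; positivity
  have hT₀1 : T₀ ≤ 1 := by
    rw [hT₀]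
    apply Real.rpow_le_one (by positivity) _ (by positivity)
    rw [div_le_one hn0]
    exact hGn
  have hT₀G : G = n * c * T₀ ^ (m - 1) := by
    have h1 : T₀ ^ (m - 1) = G / c / n := by
      rw [hT₀, ← Real.rpow_natCast, ← Real.rpow_mul (by positivity)]
      have h2 : ((m - 1 : ℕ) : ℝ) = (m : ℝ) - 1 := by
        rw [Nat.cast_sub (by omega)]
        simp
      rw [h2, one_div, inv_mul_cancel₀ hm1.ne', Real.rpow_one]
    rw [h1]
    field_simp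
  have hT₀2 : T₀ ^ 2 = (G / c) ^ (2 / ((m : ℝ) - 1)) * (n : ℝ) ^ (-(2 / ((m : ℝ) - 1))) := by
    rw [hT₀, ← Real.rpow_natCast, ← Real.rpow_mul (by positivity)]
    rw [Real.div_rpow (by positivity) hn0.le, Real.rpow_neg hn0.le, ← div_eq_mul_inv]
    have h3 : 1 / ((m : ℝ) - 1) * ((2 : ℕ) : ℝ) = 2 / ((m : ℝ) - 1) := by
      push_cast
      ring
    rw [h3]
  obtain ⟨δ, hδ⟩ : ∃ δ : ℝ, δ = δ₀ * T₀ ^ 2 := ⟨_, rfl⟩
  have hδ0 : 0 < δ := by rw [hδ]; positivity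
  -- the iteration
  have hiter : ∀ j : ℕ, ∀ (z : ℂ) (T : ℝ) (lam : ℂ) (X : ℂ → ℂ), Cur lam₀ z T lam X →
      volume (Bad F ρ X ∩ ball z T) ≤
        ENNReal.ofReal ((2 * δ + 4 / 2 ^ j) / ‖lam‖ ^ 2) := by
    intro j
    induction j with
    | zero =>
      intro z T lam X h
      have hT := h.hT
      have hlam : 0 < ‖lam‖ := hlam₀.trans_le h.hlow
      refine (measure_mono inter_subset_right).trans ?_
      rw [volume_oball _ hT.le]
      apply ENNReal.ofReal_le_ofReal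
      rw [le_div_iff₀ (by positivity)]
      have h1 := h.hsize
      have h2 : (‖lam‖ * T) ^ 2 ≤ 1 := pow_le_one₀ (by positivity) h1
      have h3 := Real.pi_le_four
      calc Real.pi * T ^ 2 * ‖lam‖ ^ 2 = Real.pi * (‖lam‖ * T) ^ 2 := by ring
        _ ≤ 4 * 1 := by gcongr
        _ ≤ 2 * δ + 4 / 2 ^ 0 := by
            rw [pow_zero]
            linarith
    | succ j ih =>
      intro z T lam X h
      have hlam : 0 < ‖lam‖ := hlam₀.trans_le h.hlow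
      have hM0 : 0 ≤ 2 * δ + 4 / 2 ^ j := by positivity
      have h1 := improve (M := 2 * δ + 4 / 2 ^ j) (ε := ε) hn3 hloc hlam₀ hρ hθ'0 hθ'1 hθ'2
        hθ'3 hm hc hT₀0 hT₀1 hT₀G hG2 hG3 hlow hM0 ih h hε0.le (hn₁ n hn1 F q hloc hlow z T lam X h)
      refine h1.trans ?_
      apply ENNReal.ofReal_le_ofReal
      refine div_le_div_of_nonneg_right ?_ (sq_nonneg _)
      have e1 : (A.card : ℝ) * (9 * Real.pi * T₀ ^ 2) ≤ δ := by
        rw [hδ, hδ₀]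
        nlinarith [sq_nonneg T₀]
      have e2 : 4 * (2 * δ + 4 / 2 ^ j) / ρ ^ 2 *
          ((144 + 4096 * (A.card : ℝ)) / (θ' ^ 2 * G ^ 2) +
            36 * ε / (Real.pi * θ' ^ 2)) =
          (2 * δ + 4 / 2 ^ j) * (4 / ρ ^ 2 * ((144 + 4096 * (A.card : ℝ)) /
            (θ' ^ 2 * G ^ 2)) + 4 / ρ ^ 2 * (36 * ε / (Real.pi * θ' ^ 2))) := by
        ring
      rw [e2]
      have e3 : (2 * δ + 4 / 2 ^ j) * (4 / ρ ^ 2 * ((144 + 4096 * (A.card : ℝ)) /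
            (θ' ^ 2 * G ^ 2)) + 4 / ρ ^ 2 * (36 * ε / (Real.pi * θ' ^ 2))) ≤
          (2 * δ + 4 / 2 ^ j) * (1 / 4 + 1 / 4) := by gcongr
      have e4 : (4 : ℝ) / 2 ^ (j + 1) = 4 / 2 ^ j / 2 := by
        rw [pow_succ]
        field_simp
      rw [e4]
      linarith
  intro z T lam X h
  have hlam : 0 < ‖lam‖ := hlam₀.trans_le h.hlow
  have hlim : Tendsto (fun j : ℕ => ENNReal.ofReal ((2 * δ + 4 / 2 ^ j) / ‖lam‖ ^ 2)) atTop
      (𝓝 (ENNReal.ofReal ((2 * δ + 0) / ‖lam‖ ^ 2))) := by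
    apply ENNReal.tendsto_ofReal
    apply Tendsto.div_const
    apply Tendsto.const_add
    have h1 := (tendsto_pow_atTop_nhds_zero_of_lt_one (by norm_num : (0 : ℝ) ≤ 1 / 2)
      (by norm_num)).const_mul 4
    rw [mul_zero] at h1
    refine h1.congr fun j => ?_
    rw [div_pow, one_pow]
    ring
  refine (ge_of_tendsto' hlim fun j => hiter j z T lam X h).trans ?_
  apply ENNReal.ofReal_le_ofReal
  gcongr
  rw [add_zero, hδ, hT₀2]
  apply le_of_eq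
  ring

end Pool.Agent.Helper134.AS
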