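import Mathlib
import Pool.Agent.Helper134_AS.CompDyn
import Pool.Agent.Helper134_AS.Curves
import Pool.Agent.Helper134_FD.Low

/-!
# The polynomials `P (z ^ n * A z) + t`: nearly affine logarithms
-/

set_option autoImplicit false

open Polynomial Filter Topology Metric

namespace Pool.Agent.Helper134.AS

open Pool.Agent.Helper134.AR (Cur exists_log')
open Pool.Agent.Helper134.FD (poly_var local_low)

variable {P A : ℂ[X]}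

/-- One step of the orbit at the parameter `ζ`. -/
noncomputable def FF (P A : ℂ[X]) (n : ℕ) (t₀ : ℂ) (ζ w : ℂ) : ℂ :=
  hh A n (P.eval w + (t₀ + ζ / n))

theorem log_hh {u u' : ℂ → ℂ} {a : ℂ} {σ : ℝ} {n : ℕ} (hσ : 0 < σ) (hn : 1 ≤ n)
    (hu : ∀ ζ ∈ ball a σ, HasDerivAt u (u' ζ) ζ)
    (hne : ∀ ζ ∈ ball a σ, u ζ ≠ 0 ∧ A.eval (u ζ) ≠ 0) :
    ∃ l : ℂ → ℂ, l a = 0 ∧ (∀ ζ ∈ ball a σ, hh A n (u ζ) = hh A n (u a) * Complex.exp (l ζ)) ∧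
      ∀ ζ ∈ ball a σ, HasDerivAt l
        ((n / u ζ + (derivative A).eval (u ζ) / A.eval (u ζ)) * u' ζ) ζ := by
  obtain ⟨l, h0, h1, h2⟩ := exists_log' (u := fun ζ => hh A n (u ζ))
    (G₀ := fun ζ => (n / u ζ + (derivative A).eval (u ζ) / A.eval (u ζ)) * u' ζ - 1) hσ (by
      intro ζ hζ
      obtain ⟨hu0, hA0⟩ := hne ζ hζ
      have hd := hu ζ hζ
      have h3 := (hd.fun_pow n).fun_mul ((A.hasDerivAt (u ζ)).comp ζ hd)
      refine h3.congr_deriv ?_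
      have h4 : u ζ ^ n = u ζ ^ (n - 1) * u ζ := by
        rw [← pow_succ]
        congr 1
        omega
      simp only [hh, Function.comp]
      rw [h4]
      field_simp
      ring) (by
      intro ζ hζ
      obtain ⟨hu0, hA0⟩ := hne ζ hζ
      exact mul_ne_zero (pow_ne_zero _ hu0) hA0)
  refine ⟨l, h0, h1, fun ζ hζ => ?_⟩
  have h3 := h2 ζ hζ
  simp only [add_sub_cancel] at h3
  exact h3

theorem ratio_var' {a a₀ b b₀ : ℂ} (hb₀ : b₀ ≠ 0) (ha : ‖a - a₀‖ ≤ 1 / 200 * ‖a₀‖)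
    (hb : ‖b - b₀‖ ≤ 1 / 1000 * ‖b₀‖) : ‖a / b - a₀ / b₀‖ ≤ 1 / 100 * ‖a₀ / b₀‖ := by
  have hb₀' : 0 < ‖b₀‖ := norm_pos_iff.2 hb₀
  have h1 : 999 / 1000 * ‖b₀‖ ≤ ‖b‖ := by
    have := norm_sub_norm_le b₀ b
    rw [norm_sub_rev] at this
    linarith
  have hb' : 0 < ‖b‖ := by
    have : 0 < 999 / 1000 * ‖b₀‖ := by positivity
    linarith
  have hbne : b ≠ 0 := norm_pos_iff.1 hb'
  have h2 : a / b - a₀ / b₀ = ((a - a₀) * b₀ - a₀ * (b - b₀)) / (b * b₀) := by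
    field_simp
    ring
  rw [h2, norm_div, norm_div, norm_mul, div_le_iff₀ (by positivity)]
  have h3 : ‖(a - a₀) * b₀ - a₀ * (b - b₀)‖ ≤ 6 / 1000 * (‖a₀‖ * ‖b₀‖) := by
    refine (norm_sub_le _ _).trans ?_
    rw [norm_mul, norm_mul]
    have e1 : ‖a - a₀‖ * ‖b₀‖ ≤ 1 / 200 * ‖a₀‖ * ‖b₀‖ := by gcongr
    have e2 : ‖a₀‖ * ‖b - b₀‖ ≤ ‖a₀‖ * (1 / 1000 * ‖b₀‖) := by gcongr
    linarith
  have h4 : 1 / 100 * (‖a₀‖ / ‖b₀‖) * (‖b‖ * ‖b₀‖) = 1 / 100 * (‖a₀‖ * ‖b‖) := by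
    field_simp
  rw [h4]
  have h5 : ‖a₀‖ * (999 / 1000 * ‖b₀‖) ≤ ‖a₀‖ * ‖b‖ := by gcongr
  have h6 : 0 ≤ ‖a₀‖ * ‖b₀‖ := by positivity
  linarith

theorem est {n : ℕ} (hn : 1 ≤ n) {B : ℝ} (hB : 2000 * B ≤ n) {p p₀ x x₀ u u₀ α : ℂ}
    (hp : ‖p - p₀‖ ≤ 1 / 1000 * ‖p₀‖) (hx : ‖x - x₀‖ ≤ 1 / 300 * ‖x₀‖)
    (hu : ‖u - u₀‖ ≤ 1 / 1000 * ‖u₀‖) (hu1 : 3 / 4 ≤ ‖u‖) (hu2 : ‖u‖ ≤ 5 / 4) (hu₀ : u₀ ≠ 0)
    (hα : ‖α‖ ≤ B) :
    ‖(n / u + α) * (p * x + 1 / n) - n * p₀ * x₀ / u₀‖ ≤ 2 + ‖n * p₀ * x₀ / u₀‖ / 50 := by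
  have hn0 : (0 : ℝ) < n := by exact_mod_cast hn
  have hn0' : (n : ℂ) ≠ 0 := by exact_mod_cast hn0.ne'
  have hn1' : (1 : ℝ) ≤ n := by exact_mod_cast hn
  have hune : u ≠ 0 := norm_pos_iff.1 (by linarith)
  have hB0 : 0 ≤ B := (norm_nonneg α).trans hα
  obtain ⟨Λ, hΛ⟩ : ∃ Λ : ℂ, Λ = n * p₀ * x₀ / u₀ := ⟨_, rfl⟩
  obtain ⟨L, hL⟩ : ∃ L : ℂ, L = n * p * x / u := ⟨_, rfl⟩
  have h1 : ‖L - Λ‖ ≤ 1 / 100 * ‖Λ‖ := by
    rw [hL, hΛ]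
    apply ratio_var' hu₀ _ hu
    have h2 : n * p * x - n * p₀ * x₀ = n * ((p - p₀) * x + p₀ * (x - x₀)) := by ring
    rw [h2, norm_mul, norm_mul, norm_mul, Complex.norm_natCast]
    have h3 : ‖x‖ ≤ 301 / 300 * ‖x₀‖ := by
      have := norm_sub_norm_le x x₀
      linarith
    have h4 : ‖(p - p₀) * x + p₀ * (x - x₀)‖ ≤ 1 / 200 * (‖p₀‖ * ‖x₀‖) := by
      refine (norm_add_le _ _).trans ?_
      rw [norm_mul, norm_mul]
      have e1 : ‖p - p₀‖ * ‖x‖ ≤ (1 / 1000 * ‖p₀‖) * (301 / 300 * ‖x₀‖) := by gcongr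
      have e2 : ‖p₀‖ * ‖x - x₀‖ ≤ ‖p₀‖ * (1 / 300 * ‖x₀‖) := by gcongr
      have e3 : 0 ≤ ‖p₀‖ * ‖x₀‖ := by positivity
      nlinarith
    calc n * ‖(p - p₀) * x + p₀ * (x - x₀)‖ ≤ n * (1 / 200 * (‖p₀‖ * ‖x₀‖)) := by gcongr
      _ = _ := by ring
  have h2 : (n / u + α) * (p * x + 1 / n) = L + (1 / u + (α * u / n) * L + α / n) := by
    rw [hL]
    field_simp
    ring
  rw [← hΛ, h2]
  have h3 : ‖1 / u‖ ≤ 4 / 3 := by
    rw [norm_div, norm_one, div_le_iff₀ (by linarith)]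
    linarith
  have h4 : ‖α * u / n‖ ≤ 1 / 1000 := by
    rw [norm_div, norm_mul, Complex.norm_natCast, div_le_iff₀ hn0]
    have : ‖α‖ * ‖u‖ ≤ B * (5 / 4) := by gcongr
    linarith
  have h5 : ‖α / n‖ ≤ 1 / 10 := by
    rw [norm_div, Complex.norm_natCast, div_le_iff₀ hn0]
    linarith
  have h6 : ‖L‖ ≤ 101 / 100 * ‖Λ‖ := by
    have := norm_sub_norm_le L Λ
    linarith
  have h7 : L + (1 / u + (α * u / n) * L + α / n) - Λ =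
      (L - Λ) + (1 / u + (α * u / n) * L + α / n) := by ring
  rw [h7]
  have h8 : ‖(α * u / n) * L‖ ≤ 1 / 1000 * (101 / 100 * ‖Λ‖) := by
    rw [norm_mul]
    gcongr
  have h9 := norm_add_le (L - Λ) (1 / u + (α * u / n) * L + α / n)
  have h10 := norm_add_le (1 / u + (α * u / n) * L) (α / n)
  have h11 := norm_add_le (1 / u) ((α * u / n) * L)
  have h12 := norm_nonneg Λ
  linarith

theorem loc_FF (hP : derivative P ≠ 0) {δ a₀ a₁ ρ : ℝ} (hδ0 : 0 < δ) (hδ1 : δ ≤ 1 / 8)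
    (ha₀ : 0 < a₀) (ha₁ : 1 ≤ a₁) (hρ0 : 0 < ρ)
    (hA₀ : ∀ u, 1 - 3 * δ ≤ ‖u‖ → a₀ ≤ ‖A.eval u‖)
    (hA₁ : ∀ u, ‖u‖ ≤ 2 → ‖A.eval u‖ ≤ a₁ ∧ ‖(derivative A).eval u‖ ≤ a₁)
    {lam₀ : ℝ} (hlam₀ : 0 < lam₀) :
    ∃ θ : ℝ, 0 < θ ∧ ∃ n₂ : ℕ, ∀ n : ℕ, n₂ ≤ n → 1 ≤ n →
      (∀ u, ρ < ‖hh A n u‖ → ‖hh A n u‖ < ρ⁻¹ → 1 - δ ≤ ‖u‖ ∧ ‖u‖ ≤ 1 + δ) →
      ∀ t₀ : ℂ, Loc (FF P A n t₀) (fun w => ‖(derivative P).eval w‖)
        (derivative P).roots.toFinset n ρ θ lam₀ := by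
  obtain ⟨θ₁, hθ₁, h₁⟩ := poly_var (derivative P) (by norm_num : (0 : ℝ) < 1 / 1000)
  obtain ⟨B, hB⟩ := (isCompact_closedBall (0 : ℂ) (ρ⁻¹ + 1)).exists_bound_of_continuousOn
    (f := fun u => (derivative P).eval u) (by fun_prop)
  obtain ⟨b₂, hb₂, hb₂'⟩ : ∃ b₂ : ℝ, 1 ≤ b₂ ∧
      ∀ w : ℂ, ‖w‖ ≤ ρ⁻¹ + 1 → ‖(derivative P).eval w‖ ≤ b₂ := by
    refine ⟨1 + |B|, by linarith [abs_nonneg B], fun w hw => ?_⟩
    have := hB w (by rwa [mem_closedBall_zero_iff])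
    have := le_abs_self B
    linarith
  have hLip : ∀ w w' : ℂ, ‖w‖ ≤ ρ⁻¹ + 1 → ‖w'‖ ≤ ρ⁻¹ + 1 →
      ‖P.eval w - P.eval w'‖ ≤ b₂ * ‖w - w'‖ := by
    intro w w' hw hw'
    exact (convex_closedBall (0 : ℂ) (ρ⁻¹ + 1)).norm_image_sub_le_of_norm_hasDerivWithin_le
      (f := fun w => P.eval w) (f' := fun w => (derivative P).eval w)
      (fun x _ => (P.hasDerivAt x).hasDerivWithinAt)
      (fun x hx => hb₂' x (by rwa [mem_closedBall_zero_iff] at hx))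
      (by rwa [mem_closedBall_zero_iff]) (by rwa [mem_closedBall_zero_iff])
  obtain ⟨η, hη0, hη1, hη2⟩ : ∃ η : ℝ, 0 < η ∧ 2 * η ≤ δ ∧ 2 * η ≤ 1 / 2000 := by
    refine ⟨min (δ / 2) (1 / 4000), by positivity, ?_, ?_⟩
    · have := min_le_left (δ / 2) (1 / 4000 : ℝ)
      linarith
    · have := min_le_right (δ / 2) (1 / 4000 : ℝ)
      linarith
  obtain ⟨θ, hθ0, hθ1, hθ2, hθ3⟩ : ∃ θ : ℝ, 0 < θ ∧ θ ≤ θ₁ ∧ θ ≤ 1 ∧ b₂ * θ ≤ η := by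
    refine ⟨min θ₁ (min 1 (η / b₂)), by positivity, min_le_left _ _,
      (min_le_right _ _).trans (min_le_left _ _), ?_⟩
    have : min θ₁ (min 1 (η / b₂)) ≤ η / b₂ := (min_le_right _ _).trans (min_le_right _ _)
    rw [le_div_iff₀ (by linarith)] at this
    linarith
  obtain ⟨n₂, hn₂⟩ := exists_nat_ge (max (1 / η) (2000 * (a₁ / a₀)))
  refine ⟨θ, hθ0, n₂, fun n hn hn1 hwin t₀ => ?_⟩
  have hnn : (n₂ : ℝ) ≤ n := by exact_mod_cast hn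
  have hnη : 1 / η ≤ n := ((le_max_left _ _).trans hn₂).trans hnn
  have hnB : 2000 * (a₁ / a₀) ≤ n := ((le_max_right _ _).trans hn₂).trans hnn
  have hn0 : (0 : ℝ) < n := by exact_mod_cast hn1
  have hn0' : (n : ℂ) ≠ 0 := by exact_mod_cast hn0.ne'
  rw [div_le_iff₀ hη0] at hnη
  have hninv : 1 / (n : ℝ) ≤ η := by
    rw [div_le_iff₀ hn0]
    linarith
  intro z T lam X h v hv σ d hσ hσT hd hd1 hdist hσd hXv hnv
  have hT := h.hT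
  have hT2 := h.T_le
  have hlam : 0 < ‖lam‖ := hlam₀.trans_le h.hlow
  have hsub : ball v σ ⊆ ball z (2 * T) := by
    intro x hx
    rw [mem_ball] at hx hv ⊢
    have := dist_triangle x v z
    linarith
  have hvz : v ∈ ball z (2 * T) := ball_subset_ball (by linarith) hv
  have hvv : v ∈ ball v σ := mem_ball_self hσ
  have hmove : ∀ ζ ∈ ball v σ, ‖X ζ - X v‖ ≤ θ * d := by
    intro ζ hζ
    have h1 := (h.bilip (hsub hζ) hvz).2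
    rw [mem_ball, dist_eq_norm] at hζ
    have h2 : 5 / 4 * ‖lam‖ * ‖ζ - v‖ ≤ 5 / 4 * ‖lam‖ * σ := by gcongr
    linarith
  have hθd : θ * d ≤ θ := by nlinarith
  set u : ℂ → ℂ := fun ζ => P.eval (X ζ) + (t₀ + ζ / n) with hu
  have hnx : ∀ ζ, nxt (FF P A n t₀) X ζ = hh A n (u ζ) := fun ζ => rfl
  rw [hnx] at hnv
  obtain ⟨hv1, hv2⟩ := hwin _ hnv.1 hnv.2
  have hudiff : ∀ ζ ∈ ball v σ, ‖u ζ - u v‖ ≤ 2 * η := by
    intro ζ hζ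
    have h1 := hmove ζ hζ
    have h2 : ‖X v‖ ≤ ρ⁻¹ + 1 := by linarith [hXv.2]
    have h3 : ‖X ζ‖ ≤ ρ⁻¹ + 1 := by
      have := norm_sub_norm_le (X ζ) (X v)
      linarith [hXv.2]
    have h4 := hLip _ _ h3 h2
    have h5 : b₂ * ‖X ζ - X v‖ ≤ η := by
      calc b₂ * ‖X ζ - X v‖ ≤ b₂ * θ := by gcongr; linarith
        _ ≤ η := hθ3
    have h6 : u ζ - u v = (P.eval (X ζ) - P.eval (X v)) + (ζ - v) / n := by
      simp only [hu]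
      ring
    rw [h6]
    refine (norm_add_le _ _).trans ?_
    have h7 : ‖(ζ - v) / n‖ ≤ η := by
      rw [norm_div, Complex.norm_natCast]
      rw [mem_ball, dist_eq_norm] at hζ
      calc ‖ζ - v‖ / n ≤ 1 / n := by
            gcongr
            linarith
        _ ≤ η := hninv
    linarith
  have hunorm : ∀ ζ ∈ ball v σ, 1 - 2 * δ ≤ ‖u ζ‖ ∧ ‖u ζ‖ ≤ 1 + 2 * δ := by
    intro ζ hζ
    have h1 := hudiff ζ hζ
    have h2 := norm_sub_norm_le (u v) (u ζ)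
    rw [norm_sub_rev] at h2
    have h3 := norm_sub_norm_le (u ζ) (u v)
    constructor <;> linarith
  have hAne : ∀ ζ ∈ ball v σ, a₀ ≤ ‖A.eval (u ζ)‖ := fun ζ hζ =>
    hA₀ _ (by linarith [(hunorm ζ hζ).1])
  have hune : ∀ ζ ∈ ball v σ, u ζ ≠ 0 ∧ A.eval (u ζ) ≠ 0 := by
    intro ζ hζ
    constructor
    · rw [← norm_pos_iff]
      linarith [(hunorm ζ hζ).1]
    · rw [← norm_pos_iff]
      linarith [hAne ζ hζ]
  have hud : ∀ ζ ∈ ball v σ, HasDerivAt u ((derivative P).eval (X ζ) * deriv X ζ + 1 / n) ζ := by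
    intro ζ hζ
    have h1 := (P.hasDerivAt (X ζ)).comp ζ (h.hdiff ζ (hsub hζ)).hasDerivAt
    have h2 := ((hasDerivAt_id ζ).div_const (n : ℂ)).const_add t₀
    exact h1.fun_add h2
  obtain ⟨l, hl0, hl1, hl2⟩ := log_hh hσ hn1 hud hune
  refine ⟨l, _, n * (derivative P).eval (X v) * deriv X v / u v, hl0, hl1, hl2, ?_, ?_, ?_⟩
  · intro ζ hζ
    have hα : ‖(derivative A).eval (u ζ) / A.eval (u ζ)‖ ≤ a₁ / a₀ := by
      rw [norm_div]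
      have h1 := hAne ζ hζ
      have h2 := (hA₁ (u ζ) (by linarith [(hunorm ζ hζ).2])).2
      gcongr
    apply est hn1 hnB _ _ _ _ _ (hune v hvv).1 hα
    · apply h₁ θ hθ0.le hθ1 (X ζ) (X v) d _ (hmove ζ hζ)
      intro y hy
      exact hdist y (Multiset.mem_toFinset.2 hy)
    · have h2 := h.deriv_var hv (σ := σ) (by linarith) hζ
      have h3 : ‖lam‖ / 2 / T * σ ≤ ‖lam‖ / 400 := by
        calc ‖lam‖ / 2 / T * σ ≤ ‖lam‖ / 2 / T * (T / 200) := by gcongr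
          _ = ‖lam‖ / 400 := by field_simp; norm_num
      have h4 := h.deriv_bds hvz
      linarith
    · have h1 := hudiff ζ hζ
      linarith
    · linarith [(hunorm ζ hζ).1]
    · linarith [(hunorm ζ hζ).2]
  · have h4 := (h.deriv_bds hvz).1
    have hu0 : 0 < ‖u v‖ := by linarith
    rw [norm_div, norm_mul, norm_mul, Complex.norm_natCast, le_div_iff₀ hu0]
    have h5 : (n : ℝ) * ‖(derivative P).eval (X v)‖ * (3 / 4 * ‖lam‖) ≤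
        n * ‖(derivative P).eval (X v)‖ * ‖deriv X v‖ := by gcongr
    have h6 : 1 / 2 * (n * ‖(derivative P).eval (X v)‖ * ‖lam‖) * ‖u v‖ ≤
        1 / 2 * (n * ‖(derivative P).eval (X v)‖ * ‖lam‖) * (5 / 4) := by
      gcongr
      linarith
    have h7 : 0 ≤ (n : ℝ) * ‖(derivative P).eval (X v)‖ * ‖lam‖ := by positivity
    linarith
  · have h4 := (h.deriv_bds hvz).2
    have hu0 : 0 < ‖u v‖ := by linarith
    rw [norm_div, norm_mul, norm_mul, Complex.norm_natCast, div_le_iff₀ hu0]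
    have h5 : (n : ℝ) * ‖(derivative P).eval (X v)‖ * ‖deriv X v‖ ≤
        n * ‖(derivative P).eval (X v)‖ * (5 / 4 * ‖lam‖) := by gcongr
    have h6 : 3 / 2 * (n * ‖(derivative P).eval (X v)‖ * ‖lam‖) * (7 / 8) ≤
        3 / 2 * (n * ‖(derivative P).eval (X v)‖ * ‖lam‖) * ‖u v‖ := by
      gcongr
      linarith
    have h7 : 0 ≤ (n : ℝ) * ‖(derivative P).eval (X v)‖ * ‖lam‖ := by positivity
    linarith

/-- The lower bound for the derivative of `P`. -/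
theorem low_FF (hP : derivative P ≠ 0) {m : ℕ}
    (hm : ∀ y, (derivative P).eval y = 0 → (derivative P).rootMultiplicity y < m) (ρ : ℝ) :
    ∃ c : ℝ, 0 < c ∧ ∀ F : ℂ → ℂ → ℂ, Low F (fun w => ‖(derivative P).eval w‖)
      (derivative P).roots.toFinset ρ c m := by
  have hglob : ∃ c : ℝ, 0 < c ∧ ∀ w ∈ closedBall (0 : ℂ) ρ⁻¹, ∀ e : ℝ, 0 ≤ e → e ≤ 1 →
      (∀ y ∈ (derivative P).roots.toFinset, e ≤ ‖w - y‖) →
      c * e ^ (m - 1) ≤ ‖(derivative P).eval w‖ := by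
    refine (isCompact_closedBall (0 : ℂ) ρ⁻¹).induction_on
      (p := fun S => ∃ c : ℝ, 0 < c ∧ ∀ w ∈ S, ∀ e : ℝ, 0 ≤ e → e ≤ 1 →
      (∀ y ∈ (derivative P).roots.toFinset, e ≤ ‖w - y‖) →
      c * e ^ (m - 1) ≤ ‖(derivative P).eval w‖) ?_ ?_ ?_ ?_
    · exact ⟨1, one_pos, fun w hw => absurd hw (Set.notMem_empty w)⟩
    · rintro S T hST ⟨c, hc0, h⟩
      exact ⟨c, hc0, fun w hw => h w (hST hw)⟩
    · rintro S T ⟨c, hc0, h⟩ ⟨c', hc0', h'⟩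
      refine ⟨min c c', lt_min hc0 hc0', ?_⟩
      rintro w (hw | hw) e he0 he1 hA
      · refine le_trans ?_ (h w hw e he0 he1 hA)
        exact mul_le_mul_of_nonneg_right (min_le_left _ _) (by positivity)
      · refine le_trans ?_ (h' w hw e he0 he1 hA)
        exact mul_le_mul_of_nonneg_right (min_le_right _ _) (by positivity)
    · intro w₀ _
      obtain ⟨c, hc0, h⟩ := local_low (w₀ := w₀) (m := m) hP (hm w₀)
      exact ⟨_, mem_nhdsWithin_of_mem_nhds h, c, hc0, fun w hw => hw⟩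
  obtain ⟨c, hc, h⟩ := hglob
  refine ⟨c, hc, fun F ζ _ w _ hw _ _ e he0 he1 hfar => ?_⟩
  exact h w (by rw [mem_closedBall_zero_iff]; exact hw.le) e he0 he1 hfar

end Pool.Agent.Helper134.AS
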