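import Mathlib
import Pool.Agent.Helper134_AS.CompLoc

/-!
# The polynomials `P (z ^ n * A z) + t`: areas in discs of radius `1 / n`
-/

set_option autoImplicit false

open Polynomial Filter Topology Metric MeasureTheory

namespace Pool.Agent.Helper134.AS

open Pool.Agent.H113R3.DH hiding Bad
open Pool.Agent.Helper134.AR (Cur)

variable {P A : ℂ[X]}

theorem first_curve {δ a₀ a₁ ρ : ℝ} (hδ0 : 0 < δ) (hδ1 : δ ≤ 1 / 8)
    (ha₀ : 0 < a₀) (ha₁ : 1 ≤ a₁) (hρ0 : 0 < ρ) (hρ1 : ρ < 1)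
    (hA₀ : ∀ u, 1 - 3 * δ ≤ ‖u‖ → a₀ ≤ ‖A.eval u‖)
    (hA₁ : ∀ u, ‖u‖ ≤ 2 → ‖A.eval u‖ ≤ a₁ ∧ ‖(derivative A).eval u‖ ≤ a₁)
    {n : ℕ} (hn : 1 ≤ n) (hnB : 2000 * (a₁ / a₀) ≤ n) (hnδ : 1 / δ ≤ n) (hn2 : (1000 : ℝ) ≤ n)
    (hwin : ∀ u, ρ < ‖hh A n u‖ → ‖hh A n u‖ < ρ⁻¹ → 1 - δ ≤ ‖u‖ ∧ ‖u‖ ≤ 1 + δ)
    {p t₀ ζ₁ : ℂ} (hζ₁ : ζ₁ ∈ ball (0 : ℂ) (ρ / 60))
    (h1 : ρ < ‖hh A n (p + (t₀ + ζ₁ / n))‖) (h2 : ‖hh A n (p + (t₀ + ζ₁ / n))‖ < ρ⁻¹) :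
    ∃ lam : ℂ, Cur (ρ / 2) 0 (ρ / 60) lam (fun ζ => hh A n (p + (t₀ + ζ / n))) := by
  have hn0 : (0 : ℝ) < n := by exact_mod_cast hn
  have hn0' : (n : ℂ) ≠ 0 := by exact_mod_cast hn0.ne'
  set u : ℂ → ℂ := fun ζ => p + (t₀ + ζ / n) with hu
  obtain ⟨hv1, hv2⟩ := hwin _ h1 h2
  rw [mem_ball_zero_iff] at hζ₁
  have hσ : 0 < 2 * (ρ / 60) := by positivity
  rw [div_le_iff₀ hδ0] at hnδ
  have hudiff : ∀ ζ ∈ ball (0 : ℂ) (2 * (ρ / 60)), ∀ ζ' ∈ ball (0 : ℂ) (2 * (ρ / 60)),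
      ‖u ζ - u ζ'‖ ≤ 1 / 10 / n := by
    intro ζ hζ ζ' hζ'
    rw [mem_ball_zero_iff] at hζ hζ'
    have h3 : u ζ - u ζ' = (ζ - ζ') / n := by
      simp only [hu]
      ring
    rw [h3, norm_div, Complex.norm_natCast]
    gcongr
    have := norm_sub_le ζ ζ'
    linarith
  have hζ₁' : ζ₁ ∈ ball (0 : ℂ) (2 * (ρ / 60)) := by
    rw [mem_ball_zero_iff]
    linarith
  have h0' : (0 : ℂ) ∈ ball (0 : ℂ) (2 * (ρ / 60)) := mem_ball_self hσ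
  have hninv : 1 / 10 / (n : ℝ) ≤ δ := by
    rw [div_le_iff₀ hn0]
    linarith
  have hninv2 : 1 / 10 / (n : ℝ) ≤ 1 / 10000 := by
    rw [div_le_iff₀ hn0]
    linarith
  have hunorm : ∀ ζ ∈ ball (0 : ℂ) (2 * (ρ / 60)), 1 - 2 * δ ≤ ‖u ζ‖ ∧ ‖u ζ‖ ≤ 1 + 2 * δ := by
    intro ζ hζ
    have g1 := hudiff ζ hζ ζ₁ hζ₁'
    have g2 := norm_sub_norm_le (u ζ₁) (u ζ)
    rw [norm_sub_rev] at g2
    have g3 := norm_sub_norm_le (u ζ) (u ζ₁)
    have hv1' : 1 - δ ≤ ‖u ζ₁‖ := hv1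
    have hv2' : ‖u ζ₁‖ ≤ 1 + δ := hv2
    constructor <;> linarith
  have hAne : ∀ ζ ∈ ball (0 : ℂ) (2 * (ρ / 60)), a₀ ≤ ‖A.eval (u ζ)‖ := fun ζ hζ =>
    hA₀ _ (by linarith [(hunorm ζ hζ).1])
  have hune : ∀ ζ ∈ ball (0 : ℂ) (2 * (ρ / 60)), u ζ ≠ 0 ∧ A.eval (u ζ) ≠ 0 := by
    intro ζ hζ
    constructor
    · rw [← norm_pos_iff]
      linarith [(hunorm ζ hζ).1]
    · rw [← norm_pos_iff]
      linarith [hAne ζ hζ]
  have hud : ∀ ζ ∈ ball (0 : ℂ) (2 * (ρ / 60)), HasDerivAt u (1 / n) ζ := by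
    intro ζ hζ
    exact (((hasDerivAt_id ζ).div_const (n : ℂ)).const_add t₀).const_add p
  obtain ⟨l, hl0, hl1, hl2⟩ := log_hh (A := A) hσ hn hud hune
  set D : ℂ → ℂ := fun ζ => (n / u ζ + (derivative A).eval (u ζ) / A.eval (u ζ)) * (1 / n) with hD
  have hαn : ∀ ζ ∈ ball (0 : ℂ) (2 * (ρ / 60)),
      ‖(derivative A).eval (u ζ) / A.eval (u ζ) / n‖ ≤ 1 / 2000 := by
    intro ζ hζ
    rw [norm_div, norm_div, Complex.norm_natCast, div_le_iff₀ hn0]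
    have g1 := hAne ζ hζ
    have g2 := (hA₁ (u ζ) (by linarith [(hunorm ζ hζ).2])).2
    have g3 : ‖(derivative A).eval (u ζ)‖ / ‖A.eval (u ζ)‖ ≤ a₁ / a₀ := by gcongr
    linarith
  have hDe : ∀ ζ ∈ ball (0 : ℂ) (2 * (ρ / 60)),
      D ζ = 1 / u ζ + (derivative A).eval (u ζ) / A.eval (u ζ) / n := by
    intro ζ hζ
    obtain ⟨g1, g2⟩ := hune ζ hζ
    simp only [hD]
    field_simp
  have huinv : ∀ ζ ∈ ball (0 : ℂ) (2 * (ρ / 60)), 4 / 5 ≤ ‖1 / u ζ‖ ∧ ‖1 / u ζ‖ ≤ 4 / 3 := by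
    intro ζ hζ
    obtain ⟨g1, g2⟩ := hunorm ζ hζ
    have g0 : 0 < ‖u ζ‖ := by linarith
    rw [norm_div, norm_one]
    constructor
    · rw [le_div_iff₀ g0]
      linarith
    · rw [div_le_iff₀ g0]
      linarith
  have hDup : ∀ ζ ∈ ball (0 : ℂ) (2 * (ρ / 60)), ‖D ζ‖ ≤ 3 / 2 := by
    intro ζ hζ
    rw [hDe ζ hζ]
    refine (norm_add_le _ _).trans ?_
    have := hαn ζ hζ
    have := (huinv ζ hζ).2
    linarith
  have hDlow : 3 / 4 ≤ ‖D 0‖ := by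
    rw [hDe 0 h0']
    have g1 := hαn 0 h0'
    have g2 := (huinv 0 h0').1
    have g3 := norm_sub_norm_le (1 / u 0) (-((derivative A).eval (u 0) / A.eval (u 0) / n))
    rw [sub_neg_eq_add, norm_neg] at g3
    linarith
  have hDdiff : ∀ ζ ∈ ball (0 : ℂ) (2 * (ρ / 60)), ‖D ζ - D 0‖ ≤ 1 / 100 := by
    intro ζ hζ
    rw [hDe ζ hζ, hDe 0 h0']
    have g1 := hαn 0 h0'
    have g2 := hαn ζ hζ
    have g3 : ‖1 / u ζ - 1 / u 0‖ ≤ 1 / 1000 := by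
      have g4 : 1 / u ζ - 1 / u 0 = (1 / u ζ) * (u 0 - u ζ) * (1 / u 0) := by
        have := (hune ζ hζ).1
        have := (hune 0 h0').1
        field_simp
      rw [g4, norm_mul, norm_mul]
      have g5 := hudiff 0 h0' ζ hζ
      calc ‖1 / u ζ‖ * ‖u 0 - u ζ‖ * ‖1 / u 0‖ ≤ 4 / 3 * (1 / 10000) * (4 / 3) := by
            gcongr
            · exact (huinv ζ hζ).2
            · exact g5.trans hninv2
            · exact (huinv 0 h0').2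
        _ ≤ 1 / 1000 := by norm_num
    have g6 : 1 / u ζ + (derivative A).eval (u ζ) / A.eval (u ζ) / n -
        (1 / u 0 + (derivative A).eval (u 0) / A.eval (u 0) / n) =
        (1 / u ζ - 1 / u 0) + ((derivative A).eval (u ζ) / A.eval (u ζ) / n -
          (derivative A).eval (u 0) / A.eval (u 0) / n) := by ring
    rw [g6]
    refine (norm_add_le _ _).trans ?_
    have g7 := norm_sub_le ((derivative A).eval (u ζ) / A.eval (u ζ) / n)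
      ((derivative A).eval (u 0) / A.eval (u 0) / n)
    linarith
  have hlsmall : ∀ ζ ∈ ball (0 : ℂ) (2 * (ρ / 60)), ‖l ζ‖ ≤ 1 / 20 := by
    intro ζ hζ
    have g1 := (convex_ball (0 : ℂ) (2 * (ρ / 60))).norm_image_sub_le_of_norm_hasDerivWithin_le
      (f := l) (f' := D) (fun x hx => (hl2 x hx).hasDerivWithinAt) (fun x hx => hDup x hx) h0' hζ
    rw [hl0, sub_zero, sub_zero] at g1
    rw [mem_ball_zero_iff] at hζ
    linarith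
  have hexp : ∀ ζ ∈ ball (0 : ℂ) (2 * (ρ / 60)), ‖Complex.exp (l ζ) - 1‖ ≤ 1 / 10 := by
    intro ζ hζ
    have g1 := hlsmall ζ hζ
    have g2 := Complex.norm_exp_sub_one_le (x := l ζ) (by linarith)
    linarith
  have hder : ∀ ζ ∈ ball (0 : ℂ) (2 * (ρ / 60)), HasDerivAt (fun ζ => hh A n (p + (t₀ + ζ / n)))
      (hh A n (u 0) * (Complex.exp (l ζ) * D ζ)) ζ := by
    intro ζ hζ
    have g1 := (hl2 ζ hζ).cexp.const_mul (hh A n (u 0))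
    refine g1.congr_of_eventuallyEq ?_
    filter_upwards [isOpen_ball.mem_nhds hζ] with x hx
    exact hl1 x hx
  have hH : 10 / 11 * ρ ≤ ‖hh A n (u 0)‖ ∧ ‖hh A n (u 0)‖ ≤ 10 / 9 * ρ⁻¹ := by
    have g1 := hexp ζ₁ hζ₁'
    have g2 := hl1 ζ₁ hζ₁'
    have g3 : hh A n (p + (t₀ + ζ₁ / n)) = hh A n (u ζ₁) := rfl
    rw [g3, g2, norm_mul] at h1 h2
    have g4 := norm_sub_norm_le (Complex.exp (l ζ₁)) 1
    have g5 := norm_sub_norm_le 1 (Complex.exp (l ζ₁))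
    rw [norm_sub_rev] at g5
    rw [norm_one] at g4 g5
    have g6 : ‖hh A n (u 0)‖ * ‖Complex.exp (l ζ₁)‖ ≤ ‖hh A n (u 0)‖ * (11 / 10) := by
      gcongr
      linarith
    have g7 : ‖hh A n (u 0)‖ * (9 / 10) ≤ ‖hh A n (u 0)‖ * ‖Complex.exp (l ζ₁)‖ := by
      gcongr
      linarith
    constructor <;> linarith
  refine ⟨hh A n (u 0) * D 0, by positivity, ?_, fun ζ hζ => (hder ζ hζ).differentiableAt, ?_, ?_,
    ?_⟩
  · exact closedBall_subset_closedBall (by linarith)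
  · intro ζ hζ
    rw [(hder ζ hζ).deriv]
    have g1 : hh A n (u 0) * (Complex.exp (l ζ) * D ζ) - hh A n (u 0) * D 0 =
        hh A n (u 0) * ((Complex.exp (l ζ) - 1) * D ζ + (D ζ - D 0)) := by ring
    rw [g1, norm_mul, norm_mul]
    have g2 : ‖(Complex.exp (l ζ) - 1) * D ζ + (D ζ - D 0)‖ ≤ ‖D 0‖ / 4 := by
      refine (norm_add_le _ _).trans ?_
      rw [norm_mul]
      have g3 : ‖Complex.exp (l ζ) - 1‖ * ‖D ζ‖ ≤ 1 / 10 * (3 / 2) := by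
        gcongr
        · exact hexp ζ hζ
        · exact hDup ζ hζ
      have g4 := hDdiff ζ hζ
      linarith
    calc ‖hh A n (u 0)‖ * ‖(Complex.exp (l ζ) - 1) * D ζ + (D ζ - D 0)‖ ≤
        ‖hh A n (u 0)‖ * (‖D 0‖ / 4) := by gcongr
      _ = _ := by ring
  · rw [norm_mul]
    calc ρ / 2 ≤ 10 / 11 * ρ * (3 / 4) := by linarith
      _ ≤ ‖hh A n (u 0)‖ * ‖D 0‖ := by
          gcongr
          exact hH.1
  · rw [norm_mul]
    calc ‖hh A n (u 0)‖ * ‖D 0‖ * (ρ / 60) ≤ 10 / 9 * ρ⁻¹ * (3 / 2) * (ρ / 60) := by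
          gcongr
          · exact hH.2
          · exact hDup 0 h0'
      _ = 1 / 36 := by
          field_simp
          norm_num
      _ ≤ 1 := by norm_num

theorem zeta (hP : 0 < P.natDegree) (hA : A ≠ 0) (hroot : ∀ a, A.eval a = 0 → ‖a‖ < 1) {m : ℕ}
    (hm2 : 2 ≤ m)
    (hm : ∀ y, (derivative P).eval y = 0 → (derivative P).rootMultiplicity y < m) {M κ : ℝ}
    (hM : 0 ≤ M) (hκ : 0 < κ) :
    ∃ ρ ρ' C : ℝ, 0 < ρ ∧ ρ < 1 ∧ 0 < ρ' ∧ 0 < C ∧ ∃ n₀ : ℕ, ∀ n : ℕ, n₀ ≤ n → 1 ≤ n ∧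
      ∀ t₀ : ℂ, ‖t₀‖ ≤ M → κ ≤ |‖P.eval 0 + t₀‖ - 1| →
        volume {ζ ∈ ball (0 : ℂ) (ρ / 60) | ¬ Hyp (TT P A n (t₀ + ζ / n))} ≤
          ENNReal.ofReal (C * (n : ℝ) ^ (-(2 / ((m : ℝ) - 1)))) ∧
        (¬ Hyp (TT P A n t₀) → ∃ y ∈ (derivative P).roots.toFinset, ‖P.eval y + t₀‖ ≤ 2 ∧
          ρ' < ‖P.eval y + t₀‖ ^ n ∧ ‖P.eval y + t₀‖ ^ n < ρ'⁻¹) := by
  have hP' : derivative P ≠ 0 := by
    intro h0
    have := derivative_eq_zero.1 h0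
    omega
  obtain ⟨δ, a₀, a₁, ρ, hδ0, hδ1, ha₀, ha₁, hρ0, hρ1, hA₀, hA₁, n₀, hn₀⟩ :=
    dyn hP hA hroot (M := M + 1) (κ := κ / 2) (by linarith) (by positivity)
  obtain ⟨θ, hθ0, n₂, hn₂⟩ := loc_FF hP' hδ0 hδ1 ha₀ ha₁ hρ0 hA₀ hA₁
    (lam₀ := ρ / 2) (by positivity)
  obtain ⟨c, hc0, hlow⟩ := low_FF hP' hm ρ
  obtain ⟨C, hC0, n₁, hn₁⟩ := curve_bound (A := (derivative P).roots.toFinset) (lam₀ := ρ / 2)
    (θ := θ) (c := c) (ρ := ρ) hm2 hθ0 (by positivity) hρ0 hρ1 hc0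
  obtain ⟨n₃, hn₃⟩ := exists_nat_ge (max (max (2000 * (a₁ / a₀)) (1 / δ)) (max 1000 (2 / κ)))
  obtain ⟨K, hK⟩ : ∃ K : ℝ, K = (derivative P).roots.toFinset.card := ⟨_, rfl⟩
  have hK0 : 0 ≤ K := by rw [hK]; positivity
  refine ⟨ρ, min (ρ / a₁) (ρ * a₀), K * (4 * C / ρ ^ 2) + 1, hρ0, hρ1, by positivity,
    by positivity, max (max n₀ n₁) (max n₂ n₃), fun n hn => ?_⟩
  have k0 : n₀ ≤ n := ((le_max_left _ _).trans (le_max_left _ _)).trans hn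
  have k1 : n₁ ≤ n := ((le_max_right _ _).trans (le_max_left _ _)).trans hn
  have k2 : n₂ ≤ n := ((le_max_left _ _).trans (le_max_right _ _)).trans hn
  have k3 : n₃ ≤ n := ((le_max_right _ _).trans (le_max_right _ _)).trans hn
  have k3' : (n₃ : ℝ) ≤ n := by exact_mod_cast k3
  have hnB : 2000 * (a₁ / a₀) ≤ n :=
    (((le_max_left _ _).trans (le_max_left _ _)).trans hn₃).trans k3'
  have hnδ : 1 / δ ≤ n := (((le_max_right _ _).trans (le_max_left _ _)).trans hn₃).trans k3'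
  have hn1000 : (1000 : ℝ) ≤ n := (((le_max_left _ _).trans (le_max_right _ _)).trans hn₃).trans k3'
  have hnκ : 2 / κ ≤ n := (((le_max_right _ _).trans (le_max_right _ _)).trans hn₃).trans k3'
  obtain ⟨hn1, hwin, hcrit⟩ := hn₀ n k0
  have hn0 : (0 : ℝ) < n := by exact_mod_cast hn1
  have hn1' : (1 : ℝ) ≤ n := by exact_mod_cast hn1
  rw [div_le_iff₀ hκ] at hnκ
  refine ⟨hn1, fun t₀ ht₀ hκ₀ => ?_⟩
  have hloc := hn₂ n k2 hn1 hwin t₀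
  set X₀ : ℂ → ℂ → ℂ := fun y ζ => hh A n (P.eval y + (t₀ + ζ / n)) with hX₀
  have hbad : ∀ ζ : ℂ, ‖ζ‖ ≤ 1 → ¬ Hyp (TT P A n (t₀ + ζ / n)) →
      ∃ y ∈ (derivative P).roots.toFinset, ζ ∈ Bad (FF P A n t₀) ρ (X₀ y) := by
    intro ζ hζ hnot
    by_contra hcon
    push Not at hcon
    apply hnot
    have g1 : ‖ζ / n‖ ≤ κ / 2 := by
      rw [norm_div, Complex.norm_natCast, div_le_iff₀ hn0]
      linarith
    have g2 : ‖ζ / n‖ ≤ 1 := by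
      rw [norm_div, Complex.norm_natCast, div_le_iff₀ hn0]
      linarith
    apply hcrit
    · exact (norm_add_le _ _).trans (by linarith)
    · have g3 : |‖P.eval 0 + (t₀ + ζ / n)‖ - ‖P.eval 0 + t₀‖| ≤ κ / 2 := by
        refine (abs_norm_sub_norm_le _ _).trans ?_
        have : P.eval 0 + (t₀ + ζ / n) - (P.eval 0 + t₀) = ζ / n := by ring
        rw [this]
        exact g1
      have g4 := abs_sub_abs_le_abs_sub (‖P.eval 0 + t₀‖ - 1) (‖P.eval 0 + (t₀ + ζ / n)‖ - 1)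
      have g5 : ‖P.eval 0 + t₀‖ - 1 - (‖P.eval 0 + (t₀ + ζ / n)‖ - 1) =
          -(‖P.eval 0 + (t₀ + ζ / n)‖ - ‖P.eval 0 + t₀‖) := by ring
      rw [g5, abs_neg] at g4
      linarith
    · intro y hy
      have h1 := hcon y (by rw [Multiset.mem_toFinset, mem_roots hP']; exact hy)
      unfold Bad at h1
      rw [Set.mem_ofPred_eq] at h1
      push Not at h1
      obtain ⟨k, hk⟩ := h1
      refine ⟨k, ?_⟩
      rw [Function.iterate_succ_apply]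
      by_cases h2 : ρ < ‖(FF P A n t₀ ζ)^[k] (X₀ y ζ)‖
      · exact Or.inr (hk h2)
      · exact Or.inl (not_lt.1 h2)
  have hone : ∀ y ∈ (derivative P).roots.toFinset,
      volume (Bad (FF P A n t₀) ρ (X₀ y) ∩ ball 0 (ρ / 60)) ≤
        ENNReal.ofReal (4 * C / ρ ^ 2 * (n : ℝ) ^ (-(2 / ((m : ℝ) - 1)))) := by
    intro y _
    rcases Set.eq_empty_or_nonempty
      (Bad (FF P A n t₀) ρ (X₀ y) ∩ ball 0 (ρ / 60)) with h1 | ⟨ζ, hζ, hζ'⟩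
    · rw [h1, measure_empty]
      exact zero_le
    · have h2 := Bad_zero hζ
      obtain ⟨lam, hcur⟩ := first_curve hδ0 hδ1 ha₀ ha₁ hρ0 hρ1 hA₀ hA₁ hn1 hnB hnδ hn1000 hwin
        hζ' h2.1 h2.2
      refine (hn₁ n k1 _ _ hloc (hlow _) _ _ _ _ hcur).trans ?_
      apply ENNReal.ofReal_le_ofReal
      have h6 : ρ / 2 ≤ ‖lam‖ := hcur.hlow
      calc C * (n : ℝ) ^ (-(2 / ((m : ℝ) - 1))) / ‖lam‖ ^ 2
          ≤ C * (n : ℝ) ^ (-(2 / ((m : ℝ) - 1))) / (ρ / 2) ^ 2 := by gcongr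
        _ = _ := by
            field_simp
            ring
  constructor
  · have hsub : {ζ ∈ ball (0 : ℂ) (ρ / 60) | ¬ Hyp (TT P A n (t₀ + ζ / n))} ⊆
        ⋃ y ∈ (derivative P).roots.toFinset,
          (Bad (FF P A n t₀) ρ (X₀ y) ∩ ball 0 (ρ / 60)) := by
      rintro ζ ⟨hζ, hnot⟩
      have h1 : ‖ζ‖ ≤ 1 := by
        rw [mem_ball_zero_iff] at hζ
        linarith
      obtain ⟨y, hy, hy'⟩ := hbad ζ h1 hnot
      simp only [Set.mem_iUnion]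
      exact ⟨y, hy, hy', hζ⟩
    refine (measure_mono hsub).trans ((measure_biUnion_finset_le _ _).trans
      ((Finset.sum_le_sum hone).trans ?_))
    rw [Finset.sum_const, nsmul_eq_mul, ← ENNReal.ofReal_natCast,
      ← ENNReal.ofReal_mul (Nat.cast_nonneg _), ← hK]
    apply ENNReal.ofReal_le_ofReal
    have hp : 0 ≤ (n : ℝ) ^ (-(2 / ((m : ℝ) - 1))) := by positivity
    rw [add_mul, ← mul_assoc]
    linarith
  · intro hnot
    obtain ⟨y, hy, hy'⟩ := hbad 0 (by simp) (by simpa using hnot)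
    have h2 := Bad_zero hy'
    simp only [hX₀, zero_div, add_zero] at h2
    obtain ⟨h3, h4⟩ := hwin _ h2.1 h2.2
    refine ⟨y, hy, by linarith, ?_, ?_⟩
    · have h5 := h2.1
      unfold hh at h5
      rw [norm_mul, norm_pow] at h5
      refine lt_of_le_of_lt (min_le_left _ _) ?_
      rw [div_lt_iff₀ (by linarith)]
      refine lt_of_lt_of_le h5 ?_
      gcongr
      exact (hA₁ _ (by linarith)).1
    · have h5 := h2.2
      unfold hh at h5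
      rw [norm_mul, norm_pow] at h5
      have h6 := hA₀ (P.eval y + t₀) (by linarith)
      have h7 : ‖P.eval y + t₀‖ ^ n * a₀ < ρ⁻¹ := lt_of_le_of_lt (by gcongr) h5
      rw [← lt_div_iff₀ ha₀] at h7
      refine lt_of_lt_of_le h7 ?_
      rw [le_inv_comm₀ (by positivity) (by positivity)]
      refine (min_le_right _ _).trans ?_
      rw [inv_div, div_inv_eq_mul, mul_comm]

end Pool.Agent.Helper134.AS
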