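import Mathlib
import Pool.Agent.Helper134_AR.Plane
import Pool.Agent.Helper134_AS.CompParam

/-!
# The polynomials `P (z ^ n * A z) + t`: the area of the parameters which are not hyperbolic
-/

set_option autoImplicit false

open Polynomial Filter Topology Metric MeasureTheory

namespace Pool.Agent.Helper134.AS

open Pool.Agent.H113R3.DH hiding Bad
open Pool.Agent.Helper134.AR (Cur area_image_le' cov rpow_two_mul ring_cover volume_oball)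

variable {P A : ℂ[X]}

theorem local_plane (hP : 0 < P.natDegree) (hA : A ≠ 0) (hroot : ∀ a, A.eval a = 0 → ‖a‖ < 1)
    {m : ℕ} (hm2 : 2 ≤ m)
    (hm : ∀ y, (derivative P).eval y = 0 → (derivative P).rootMultiplicity y < m) {M κ : ℝ}
    (hM : 0 ≤ M) (hκ : 0 < κ) :
    ∃ ρ' c₁ C : ℝ, 0 < ρ' ∧ 0 < c₁ ∧ 0 < C ∧ ∃ n₀ : ℕ, ∀ n : ℕ, n₀ ≤ n → 1 ≤ n ∧
      ∀ t₀ : ℂ, ‖t₀‖ ≤ M → κ ≤ |‖P.eval 0 + t₀‖ - 1| →
        volume {t ∈ ball t₀ (c₁ / n) | ¬ Hyp (TT P A n t)} ≤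
          ENNReal.ofReal (C * (n : ℝ) ^ (-(2 * (m : ℝ) / ((m : ℝ) - 1)))) ∧
        (¬ Hyp (TT P A n t₀) → ∃ y ∈ (derivative P).roots.toFinset, ‖P.eval y + t₀‖ ≤ 2 ∧
          ρ' < ‖P.eval y + t₀‖ ^ n ∧ ‖P.eval y + t₀‖ ^ n < ρ'⁻¹) := by
  obtain ⟨ρ, ρ', C, hρ0, hρ1, hρ', hC, n₀, hn₀⟩ := zeta hP hA hroot hm2 hm hM hκ
  have hm1 : (0 : ℝ) < (m : ℝ) - 1 := by
    have : (2 : ℝ) ≤ m := by exact_mod_cast hm2
    linarith
  refine ⟨ρ', ρ / 60, C, hρ', by positivity, hC, n₀, fun n hn => ?_⟩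
  obtain ⟨hn1, hmain⟩ := hn₀ n hn
  refine ⟨hn1, fun t₀ ht₀ hκ₀ => ?_⟩
  obtain ⟨hvol, hthin⟩ := hmain t₀ ht₀ hκ₀
  refine ⟨?_, hthin⟩
  have hn0 : (0 : ℝ) < n := by exact_mod_cast hn1
  have hn0' : (n : ℂ) ≠ 0 := by exact_mod_cast hn0.ne'
  have hsub : {t ∈ ball t₀ (ρ / 60 / n) | ¬ Hyp (TT P A n t)} ⊆
      (fun ζ : ℂ => t₀ + ζ / n) '' {ζ ∈ ball (0 : ℂ) (ρ / 60) | ¬ Hyp (TT P A n (t₀ + ζ / n))} := by
    rintro t ⟨ht, hnot⟩
    rw [mem_ball, dist_eq_norm, lt_div_iff₀ hn0] at ht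
    have he : t₀ + n * (t - t₀) / n = t := by
      field_simp
      ring
    refine ⟨n * (t - t₀), ⟨?_, ?_⟩, he⟩
    · rw [mem_ball_zero_iff, norm_mul, Complex.norm_natCast, mul_comm]
      exact ht
    · rw [he]
      exact hnot
  have hd : ∀ ζ ∈ ball (0 : ℂ) (ρ / 60), HasDerivAt (fun ζ : ℂ => t₀ + ζ / n) (1 / n) ζ := by
    intro ζ _
    exact ((hasDerivAt_id ζ).div_const (n : ℂ)).const_add t₀
  have hup : ∀ ζ ∈ ball (0 : ℂ) (ρ / 60), ‖(1 / n : ℂ)‖ ≤ 1 / n := by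
    intro ζ _
    rw [norm_div, norm_one, Complex.norm_natCast]
  refine (measure_mono hsub).trans ((area_image_le' measurableSet_ball (fun ζ hζ => hζ.1) hd
    hup).trans ((mul_le_mul_right hvol _).trans ?_))
  rw [← ENNReal.ofReal_mul (by positivity)]
  apply ENNReal.ofReal_le_ofReal
  rw [rpow_two_mul hn0 hm1]
  apply le_of_eq
  rw [one_div]
  ring

/-- The main bounds. -/
theorem main_comp (hP : 0 < P.natDegree) (hA : A ≠ 0) (hroot : ∀ a, A.eval a = 0 → ‖a‖ < 1)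
    {m : ℕ} (hm2 : 2 ≤ m)
    (hm : ∀ y, (derivative P).eval y = 0 → (derivative P).rootMultiplicity y < m) {M κ : ℝ}
    (hM : 0 ≤ M) (hκ : 0 < κ) :
    ∃ C : ℝ, 0 < C ∧ ∃ n₀ : ℕ, ∀ n : ℕ, n₀ ≤ n →
      (∀ t₀ : ℂ, volume {t : ℂ | ‖t - t₀‖ ≤ 1 / n ∧ ‖t‖ ≤ M ∧ κ ≤ |‖P.eval 0 + t‖ - 1| ∧
        ¬ Hyp (TT P A n t)} ≤
          ENNReal.ofReal (C * (n : ℝ) ^ (-(2 * (m : ℝ) / ((m : ℝ) - 1))))) ∧
      volume {t : ℂ | ‖t‖ ≤ M ∧ κ ≤ |‖P.eval 0 + t‖ - 1| ∧ ¬ Hyp (TT P A n t)} ≤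
          ENNReal.ofReal (C * (n : ℝ) ^ (-(((m : ℝ) + 1) / ((m : ℝ) - 1)))) ∧
      ∀ t : ℂ, ‖t‖ ≤ M → κ ≤ |‖P.eval 0 + t‖ - 1| → ∃ t' : ℂ,
        ‖t' - t‖ ≤ C * (n : ℝ) ^ (-((m : ℝ) / ((m : ℝ) - 1))) ∧ Hyp (TT P A n t') := by
  have hpi := Real.pi_pos
  have hm1 : (0 : ℝ) < (m : ℝ) - 1 := by
    have : (2 : ℝ) ≤ m := by exact_mod_cast hm2
    linarith
  obtain ⟨ρ, c₁, C, hρ0, hc₁, hC, n₀, hn₀⟩ := local_plane hP hA hroot hm2 hm hM hκ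
  obtain ⟨J₁, hJ₁⟩ := cov hc₁ (A := 1) one_pos
  obtain ⟨J₂, hJ₂⟩ := cov hc₁ (A := 2 * 2 / ρ + 4 * Real.pi * 2) (by positivity)
  obtain ⟨n₁, hn₁⟩ := exists_nat_ge (2 / ρ)
  obtain ⟨C₂, hC₂⟩ : ∃ C₂ : ℝ, C₂ = C + 1 := ⟨_, rfl⟩
  have hC₂0 : 0 < C₂ := by rw [hC₂]; positivity
  have hlim2 : Tendsto (fun n : ℕ => C₂ * (n : ℝ) ^ (-(1 / ((m : ℝ) - 1)))) atTop
      (𝓝 (C₂ * 0)) :=
    ((tendsto_rpow_neg_atTop (by positivity)).comp tendsto_natCast_atTop_atTop).const_mul C₂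
  rw [mul_zero] at hlim2
  obtain ⟨n₂, hn₂⟩ := eventually_atTop.1 (hlim2.eventually_le_const hc₁)
  obtain ⟨K, hK⟩ : ∃ K : ℝ, K = (derivative P).roots.toFinset.card := ⟨_, rfl⟩
  have hK0 : 0 ≤ K := by rw [hK]; positivity
  refine ⟨C₂ + J₁ * C + K * (2 * (J₂ * C)), by positivity, max n₀ (max n₁ n₂), fun n hn => ?_⟩
  have hnn0 : n₀ ≤ n := (le_max_left _ _).trans hn
  have hnn1 : n₁ ≤ n := ((le_max_left _ _).trans (le_max_right _ _)).trans hn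
  have hnn2 : n₂ ≤ n := ((le_max_right _ _).trans (le_max_right _ _)).trans hn
  obtain ⟨hn1, hmain⟩ := hn₀ n hnn0
  have hn0 : (0 : ℝ) < n := by exact_mod_cast hn1
  have hn1' : (1 : ℝ) ≤ n := by exact_mod_cast hn1
  have hnρ : 2 / ρ ≤ n := hn₁.trans (by exact_mod_cast hnn1)
  set B : Set ℂ := {t : ℂ | ‖t‖ ≤ M ∧ κ ≤ |‖P.eval 0 + t‖ - 1| ∧ ¬ Hyp (TT P A n t)} with hB
  obtain ⟨β, hβ⟩ : ∃ β : ℝ, β = C * (n : ℝ) ^ (-(2 * (m : ℝ) / ((m : ℝ) - 1))) := ⟨_, rfl⟩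
  have hβ0 : 0 ≤ β := by rw [hβ]; positivity
  have hBloc : ∀ s ∈ B, volume (B ∩ ball s (c₁ * (1 / n))) ≤ ENNReal.ofReal β := by
    intro s hs
    have h1 := (hmain s hs.1 hs.2.1).1
    rw [← hβ] at h1
    refine le_trans (measure_mono ?_) h1
    rintro s' ⟨hs', hs''⟩
    refine ⟨?_, hs'.2.2⟩
    rwa [mul_one_div] at hs''
  refine ⟨?_, ?_, ?_⟩
  · intro s
    have h1 := hJ₁ B (1 / n) (by positivity) _ hBloc s
    have h2 : {t : ℂ | ‖t - s‖ ≤ 1 / n ∧ ‖t‖ ≤ M ∧ κ ≤ |‖P.eval 0 + t‖ - 1| ∧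
        ¬ Hyp (TT P A n t)} ⊆ B ∩ closedBall s (1 * (1 / n)) := by
      rintro s' ⟨h3, h4⟩
      refine ⟨h4, ?_⟩
      rw [mem_closedBall, dist_eq_norm, one_mul]
      exact h3
    refine (measure_mono h2).trans (h1.trans ?_)
    rw [← ENNReal.ofReal_natCast, ← ENNReal.ofReal_mul (by positivity)]
    apply ENNReal.ofReal_le_ofReal
    have hp : 0 ≤ (n : ℝ) ^ (-(2 * (m : ℝ) / ((m : ℝ) - 1))) := by positivity
    rw [hβ, ← mul_assoc]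
    gcongr
    have : 0 ≤ K * (2 * (J₂ * C)) := by positivity
    linarith
  · have hcover : B ⊆ ⋃ y ∈ (derivative P).roots.toFinset, ⋃ j ∈ Finset.range (n + 1),
        (B ∩ closedBall (((1 : ℝ) : ℂ) *
          Complex.exp ((2 * Real.pi * j / n - Real.pi : ℝ) * Complex.I) - P.eval y)
          ((2 * 2 / ρ + 4 * Real.pi * 2) * (1 / n))) := by
      intro s hs
      obtain ⟨y, hy, hy0, hy1, hy2⟩ := (hmain s hs.1 hs.2.1).2 hs.2.2
      obtain ⟨j, hj, hsj⟩ := ring_cover (b := 1) hρ0 (by norm_num : (0 : ℝ) < 2) hn1 hnρ one_pos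
        hy0 (by rwa [div_one]) (by rwa [div_one])
      simp only [Set.mem_iUnion]
      refine ⟨y, hy, j, hj, hs, ?_⟩
      rw [mem_closedBall, dist_eq_norm] at hsj ⊢
      refine le_trans (le_of_eq ?_) hsj
      congr 1
      ring
    refine (measure_mono hcover).trans ((measure_biUnion_finset_le _ _).trans
      ((Finset.sum_le_sum (g := fun _ => ENNReal.ofReal ((n + 1) * (J₂ * β))) ?_).trans ?_))
    · intro y _
      refine (measure_biUnion_finset_le _ _).trans ((Finset.sum_le_sum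
        (g := fun _ => ENNReal.ofReal (J₂ * β)) ?_).trans ?_)
      · intro j _
        refine (hJ₂ B (1 / n) (by positivity) _ hBloc _).trans ?_
        rw [← ENNReal.ofReal_natCast, ← ENNReal.ofReal_mul (by positivity)]
      · rw [Finset.sum_const, nsmul_eq_mul, Finset.card_range, ← ENNReal.ofReal_natCast,
          ← ENNReal.ofReal_mul (by positivity)]
        push_cast
        exact le_rfl
    · rw [Finset.sum_const, nsmul_eq_mul, ← ENNReal.ofReal_natCast,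
        ← ENNReal.ofReal_mul (by positivity), ← hK]
      apply ENNReal.ofReal_le_ofReal
      have he : (n : ℝ) * (n : ℝ) ^ (-(2 * (m : ℝ) / ((m : ℝ) - 1))) =
          (n : ℝ) ^ (-(((m : ℝ) + 1) / ((m : ℝ) - 1))) := by
        have h1 : -(((m : ℝ) + 1) / ((m : ℝ) - 1)) = 1 + -(2 * (m : ℝ) / ((m : ℝ) - 1)) := by
          field_simp
          ring
        rw [h1, Real.rpow_add hn0, Real.rpow_one]
      rw [← he]
      have hp : 0 ≤ (n : ℝ) * (n : ℝ) ^ (-(2 * (m : ℝ) / ((m : ℝ) - 1))) := by positivity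
      calc K * ((n + 1) * (J₂ * β)) ≤ K * ((n + n) * (J₂ * β)) := by gcongr
        _ = K * (2 * (J₂ * C)) * (n * (n : ℝ) ^ (-(2 * (m : ℝ) / ((m : ℝ) - 1)))) := by
            rw [hβ]
            ring
        _ ≤ _ := by
            gcongr
            have : 0 ≤ C₂ + J₁ * C := by positivity
            linarith
  · intro s hs1 hs2
    by_contra hcon
    push Not at hcon
    have h1 := (hmain s hs1 hs2).1
    obtain ⟨r, hr'⟩ : ∃ r : ℝ, r = C₂ * (n : ℝ) ^ (-((m : ℝ) / ((m : ℝ) - 1))) := ⟨_, rfl⟩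
    have hr0 : 0 < r := by rw [hr']; positivity
    have hrc : r ≤ c₁ / n := by
      have h2 := hn₂ n hnn2
      rw [hr', le_div_iff₀ hn0]
      have h3 : -((m : ℝ) / ((m : ℝ) - 1)) = -(1 / ((m : ℝ) - 1)) + -1 := by
        field_simp
        ring
      rw [h3, Real.rpow_add hn0, Real.rpow_neg_one]
      calc C₂ * ((n : ℝ) ^ (-(1 / ((m : ℝ) - 1))) * (n : ℝ)⁻¹) * n =
            C₂ * (n : ℝ) ^ (-(1 / ((m : ℝ) - 1))) := by field_simp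
        _ ≤ c₁ := h2
    have h2 : ball s r ⊆ {t ∈ ball s (c₁ / n) | ¬ Hyp (TT P A n t)} := by
      intro s' hs'
      refine ⟨ball_subset_ball hrc hs', ?_⟩
      apply hcon
      rw [mem_ball, dist_eq_norm] at hs'
      refine hs'.le.trans ?_
      rw [hr']
      gcongr
      have : 0 ≤ J₁ * C + K * (2 * (J₂ * C)) := by positivity
      linarith
    have h3 := (measure_mono h2).trans h1
    rw [volume_oball _ hr0.le, ENNReal.ofReal_le_ofReal_iff (by positivity)] at h3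
    have h4 : r ^ 2 = C₂ ^ 2 * (n : ℝ) ^ (-(2 * (m : ℝ) / ((m : ℝ) - 1))) := by
      rw [hr', mul_pow]
      congr 1
      rw [← Real.rpow_natCast, ← Real.rpow_mul hn0.le]
      congr 1
      push_cast
      ring
    rw [h4] at h3
    have hp : 0 < (n : ℝ) ^ (-(2 * (m : ℝ) / ((m : ℝ) - 1))) := by positivity
    have h5 : Real.pi * C₂ ^ 2 ≤ C := by
      have h6 : (Real.pi * C₂ ^ 2) * (n : ℝ) ^ (-(2 * (m : ℝ) / ((m : ℝ) - 1))) ≤
          C * (n : ℝ) ^ (-(2 * (m : ℝ) / ((m : ℝ) - 1))) := by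
        calc _ = Real.pi * (C₂ ^ 2 * (n : ℝ) ^ (-(2 * (m : ℝ) / ((m : ℝ) - 1)))) := by ring
          _ ≤ _ := h3
      exact le_of_mul_le_mul_right h6 hp
    have h7 := Real.pi_gt_three
    have h8 : C₂ ^ 2 = C ^ 2 + 2 * C + 1 := by rw [hC₂]; ring
    nlinarith

end Pool.Agent.Helper134.AS
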